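import Pool.Agent.H71.CQ.Targets

set_option autoImplicit false

open Set

namespace Pool.Agent.H71.CQ

/-- covered by countably many classes -/
def CovC {T : Type} (E : T → T → Prop) (A : Set T) : Prop :=
  ∃ D : Set T, D.Countable ∧ ∀ a ∈ A, ∃ d ∈ D, E a d

theorem CovC.mono {T : Type} {E : T → T → Prop} {A B : Set T} (h : CovC E B) (hAB : A ⊆ B) :
    CovC E A := by
  obtain ⟨D, hD, h⟩ := h
  exact ⟨D, hD, fun a ha => h a (hAB ha)⟩

theorem CovC.union {T : Type} {E : T → T → Prop} {A B : Set T} (h : CovC E A) (h' : CovC E B) :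
    CovC E (A ∪ B) := by
  obtain ⟨D, hD, h⟩ := h
  obtain ⟨D', hD', h'⟩ := h'
  refine ⟨D ∪ D', hD.union hD', fun a ha => ?_⟩
  rcases ha with ha | ha
  · obtain ⟨d, hd, he⟩ := h a ha
    exact ⟨d, Or.inl hd, he⟩
  · obtain ⟨d, hd, he⟩ := h' a ha
    exact ⟨d, Or.inr hd, he⟩

theorem CovC.iUnion {T ι : Type} [Countable ι] {E : T → T → Prop} {A : ι → Set T}
    (h : ∀ i, CovC E (A i)) : CovC E (⋃ i, A i) := by
  choose D hD h using h
  refine ⟨⋃ i, D i, Set.countable_iUnion hD, fun a ha => ?_⟩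
  obtain ⟨i, hi⟩ := Set.mem_iUnion.1 ha
  obtain ⟨d, hd, he⟩ := h i a hi
  exact ⟨d, Set.mem_iUnion.2 ⟨i, hd⟩, he⟩

theorem pf_SEL : T_SEL := by
  classical
  intro T Θ _ E H hr hs ht hn
  -- the good points
  let G : Set T := {a | ∀ θ, H a θ → ¬ CovC E {b | H b θ}}
  have hG : CovC E Gᶜ := by
    have h1 : Gᶜ ⊆ ⋃ θ : {θ : Θ // CovC E {b | H b θ}}, {b | H b θ.1} := by
      intro a ha
      have h2 : ¬ ∀ θ, H a θ → ¬ CovC E {b | H b θ} := ha
      push Not at h2
      obtain ⟨θ, h3, h4⟩ := h2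
      exact Set.mem_iUnion.2 ⟨⟨θ, h4⟩, h3⟩
    exact (CovC.iUnion fun θ => θ.2).mono h1
  have hT : ¬ CovC E (Set.univ : Set T) := fun ⟨D, hD, h⟩ => hn ⟨D, hD, fun a => h a trivial⟩
  have hGn : ¬ CovC E G := fun h => hT ((h.union hG).mono fun a _ => by
    by_cases ha : a ∈ G
    · exact Or.inl ha
    · exact Or.inr ha)
  have hGθ : ∀ a ∈ G, ∀ θ, H a θ → ¬ CovC E {b | b ∈ G ∧ H b θ} := by
    intro a ha θ hθ h
    refine ha θ hθ ((h.union hG).mono fun b hb => ?_)
    by_cases hb' : b ∈ G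
    · exact Or.inl ⟨hb', hb⟩
    · exact Or.inr hb'
  -- one step
  have step : ∀ (l : List T) (q : Option (T × Θ)), ∃ b ∈ G, (∀ c ∈ l, ¬ E b c) ∧
      ∀ a θ, q = some (a, θ) → a ∈ G → H a θ → H b θ := by
    intro l q
    have hcov : ∀ A : Set T, ¬ CovC E A → ∃ b ∈ A, ∀ c ∈ l, ¬ E b c := by
      intro A hA
      by_contra hcon
      push Not at hcon
      refine hA ⟨{c | c ∈ l}, (List.finite_toSet l).countable, fun a ha => ?_⟩
      obtain ⟨c, hc, he⟩ := hcon a ha
      exact ⟨c, hc, he⟩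
    by_cases hq : ∃ a θ, q = some (a, θ) ∧ a ∈ G ∧ H a θ
    · obtain ⟨a, θ, h1, h2, h3⟩ := hq
      obtain ⟨b, ⟨hb, hb'⟩, hb2⟩ := hcov _ (hGθ a h2 θ h3)
      refine ⟨b, hb, hb2, fun a' θ' h4 _ _ => ?_⟩
      rw [h1] at h4
      injection h4 with h4
      injection h4 with h5 h6
      rw [← h6]
      exact hb'
    · obtain ⟨b, hb, hb2⟩ := hcov _ hGn
      exact ⟨b, hb, hb2, fun a θ h1 h2 h3 => (hq ⟨a, θ, h1, h2, h3⟩).elim⟩
  choose nx h1 h2 h3 using step
  -- an enumeration of the requirements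
  obtain ⟨c, hc⟩ := exists_surjective_nat ((ℕ × Option Θ) × ℕ)
  -- the sequence of lists (the newest point first)
  let L : ℕ → List T := fun n => Nat.rec [] (fun n l =>
    nx l ((c n).1.2.bind fun θ => (l.reverse[(c n).1.1]?).map fun a => (a, θ)) :: l) n
  let t : ℕ → T := fun n =>
    nx (L n) ((c n).1.2.bind fun θ => ((L n).reverse[(c n).1.1]?).map fun a => (a, θ))
  have hL : ∀ n, L (n + 1) = t n :: L n := fun n => rfl
  have hrev : ∀ n, (L n).reverse = List.map t (List.range n) := by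
    intro n
    induction n with
    | zero => rfl
    | succ n ih => rw [hL, List.reverse_cons, ih, List.range_succ, List.map_append]; rfl
  have hmem : ∀ n, ∀ a, a ∈ L n ↔ ∃ i < n, t i = a := by
    intro n a
    rw [← List.mem_reverse, hrev]
    simp
  have hget : ∀ n i, i < n → (L n).reverse[i]? = some (t i) := by
    intro n i hi
    rw [hrev]
    simp [hi]
  have htG : ∀ n, t n ∈ G := fun n => h1 _ _
  have hne : ∀ i n, i < n → ¬ E (t n) (t i) := fun i n hi => h2 _ _ _ ((hmem n _).2 ⟨i, hi, rfl⟩)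
  refine ⟨t, fun i j hij => ?_, fun i θ hθ => ?_⟩
  · rcases lt_or_gt_of_ne hij with h | h
    · exact fun he => hne i j h (hs _ _ he)
    · exact hne j i h
  · -- infinitely many stages
    have h4 : {n | ∃ k, c n = ((i, some θ), k)}.Infinite := by
      have h5 : Set.InjOn (fun k : ℕ => Classical.choose (hc ((i, some θ), k))) Set.univ := by
        intro k _ k' _ h
        have e1 := Classical.choose_spec (hc ((i, some θ), k))
        have e2 := Classical.choose_spec (hc ((i, some θ), k'))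
        change Classical.choose (hc ((i, some θ), k)) = Classical.choose (hc ((i, some θ), k')) at h
        rw [h, e2] at e1
        exact (Prod.mk.inj e1).2.symm
      refine (Set.infinite_univ.image h5).mono ?_
      rintro _ ⟨k, _, rfl⟩
      exact ⟨k, Classical.choose_spec (hc ((i, some θ), k))⟩
    refine (h4.sdiff (Set.finite_Iic i)).mono ?_
    rintro n ⟨⟨k, hk⟩, hn⟩
    have hi : i < n := not_le.1 hn
    refine h3 (L n) _ (t i) θ ?_ (htG i) hθ
    rw [hk]
    change ((L n).reverse[i]?).map (fun a => (a, θ)) = some (t i, θ)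
    rw [hget n i hi]
    rfl

end Pool.Agent.H71.CQ
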