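import Pool.Agent.H71.CQ.MAIN
import Pool.Agent.H71.CQ.SEL
import Pool.Agent.H2.CQ.ISO
import Pool.Agent.H86.CQ.CLI
import Pool.Agent.H1.CQ.ALF
import Pool.Agent.H1.CQ.RLC
import Pool.Agent.H1.CQ.WCH
import Pool.Agent.H3.CQ.SUM
import Pool.Agent.H5.CQ.LNK
import Pool.Agent.H6.CQ.RBC
import Pool.Agent.H6.CQ.RBN
import Pool.Agent.H7.CQ.CTO
import Pool.Agent.H11.CQ.LVF
import Pool.Agent.H13.CQ.CLA
import Pool.Agent.H21.CQ.RLB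
import Pool.Agent.H27.CQ.CTT
import Pool.Agent.H27.CQ.ONE
import Pool.Agent.H27.CQ.UNX
import Pool.Agent.H34.CQ.DEG
import Pool.Agent.H35.CQ.DEC
import Pool.Agent.H36.CQ.CTV
import Pool.Agent.H36.CQ.SIL
import Pool.Agent.H38.CQ.ORB
import Pool.Agent.H38.CQ.SFH
import Pool.Agent.H46.CQ.INV
import Pool.Agent.H46.CQ.UNH
import Pool.Agent.H49.CQ.UN2
import Pool.Agent.H54.CQ.CLM
import Pool.Agent.H60.CQ.GLU
import Pool.Agent.H60.CQ.LIM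
import Pool.Agent.H60.CQ.LNA
import Pool.Agent.H60.CQ.SUW
import Pool.Agent.H63.CQ.LNW
import Pool.Agent.H63.CQ.UNC
import Pool.Agent.H67.CQ.RBD
import Pool.Agent.H67.CQ.WTR
import Pool.Agent.H68.CQ.MEM
import Pool.Agent.H72.CQ.FRE
import Pool.Agent.H72.CQ.RBA
import Pool.Agent.H73.CQ.CLD
import Pool.Agent.H79.CQ.LVI
import Pool.Agent.H79.CQ.UNI
import Pool.Agent.H78.CQ.LNM
import Pool.Agent.H80.CQ.LNI
import Pool.Agent.H82.CQ.BOR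
import Pool.Agent.H84.CQ.SIM
import Pool.Agent.H88.CQ.ACT
import Pool.Agent.H94.CQ.SUB

/-!
# The dichotomy for classes in normal form: all rows
-/

set_option autoImplicit false

namespace Pool.Agent.H71.CQ

/-- the dichotomy for classes in normal form -/
theorem pf_all : T_MAIN := by
  have hSEL : T_SEL := pf_SEL
  have hDEG : T_DEG := Pool.Agent.H34.CQ.pf_DEG
  have hSIL : T_SIL := Pool.Agent.H36.CQ.pf_SIL
  have hCTO : T_CTO := Pool.Agent.H7.CQ.pf_CTO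
  have hCTV : T_CTV := Pool.Agent.H36.CQ.pf_CTV hCTO
  have hMEM : T_MEM := Pool.Agent.H68.CQ.pf_MEM
  have hINV : T_INV := Pool.Agent.H46.CQ.pf_INV hSIL hCTO hMEM
  have hRLC : T_RLC := Pool.Agent.H1.CQ.pf_RLC hINV
  have hSUB : T_SUB := Pool.Agent.H94.CQ.pf_SUB
  have hGLU : T_GLU := Pool.Agent.H60.CQ.pf_GLU hDEG
  have hWCH : T_WCH := Pool.Agent.H1.CQ.pf_WCH
  have hWTR : T_WTR := Pool.Agent.H67.CQ.pf_WTR
  have hRBA : T_RBA := Pool.Agent.H72.CQ.pf_RBA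
  have hRBC : T_RBC := Pool.Agent.H6.CQ.pf_RBC hDEG hRBA
  have hRBR : T_RBR := Pool.Agent.H6.CQ.pf_RBR hDEG hRBA
  have hRBN : T_RBN := Pool.Agent.H6.CQ.pf_RBN hDEG hRBA
  have hRBD : T_RBD := Pool.Agent.H67.CQ.pf_RBD hDEG hRBA
  have hRLB : T_RLB := Pool.Agent.H21.CQ.pf_RLB hDEG hGLU hRBC hRBR hRBN hRBD
  have hALF : T_ALF := Pool.Agent.H1.CQ.pf_ALF hINV hRLB
  have hFRE : T_FRE := Pool.Agent.H72.CQ.pf_FRE hDEG
  have hSUM : T_SUM := Pool.Agent.H3.CQ.pf_SUM hGLU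
  have hSUW : T_SUW := Pool.Agent.H60.CQ.pf_SUW hWTR hWCH
  have hUNH : T_UNH := Pool.Agent.H46.CQ.pf_UNH
  have hUNX : T_UNX := Pool.Agent.H27.CQ.pf_UNX
  have hUNC : T_UNC := Pool.Agent.H63.CQ.pf_UNC hUNX
  have hUNI : T_UNI := Pool.Agent.H79.CQ.pf_UNI hCTV hSUM hUNH hUNC
  have hUN2 : T_UN2 := Pool.Agent.H49.CQ.pf_UN2 hSUM hSUW
  have hLVF : T_LVF := Pool.Agent.H11.CQ.pf_LVF hDEG
  have hLVI : T_LVI := Pool.Agent.H79.CQ.pf_LVI hLVF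
  have hSIM : T_SIM := Pool.Agent.H84.CQ.pf_SIM hSIL hMEM hRLC hLVI hLVF
  have hORB : T_ORB := Pool.Agent.H38.CQ.pf_ORB hDEG
  have hLIM : T_LIM := Pool.Agent.H60.CQ.pf_LIM hORB
  have hSFH : T_SFH := Pool.Agent.H38.CQ.pf_SFH
  have hCLA : T_CLA := Pool.Agent.H13.CQ.pf_CLA
  have hCLM : T_CLM := Pool.Agent.H54.CQ.pf_CLM hGLU hWTR hWCH hCLA hSFH
  have hCLI : T_CLI := Pool.Agent.H86.CQ.pf_CLI hCLM hCLA
  have hCLD : T_CLD := Pool.Agent.H73.CQ.pf_CLD hCTV hSUB hRLC hSEL hCLM hCLI hCLA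
  have hLNA : T_LNA := Pool.Agent.H60.CQ.pf_LNA hORB
  have hLNW : T_LNW := Pool.Agent.H63.CQ.pf_LNW hWTR hWCH
  have hLNI : T_LNI := Pool.Agent.H80.CQ.pf_LNI hLNW
  have hLNM : T_LNM := Pool.Agent.H78.CQ.pf_LNM hGLU
  have hLNK : T_LNK := Pool.Agent.H5.CQ.pf_LNK hCTV hLNA hLNM hLNI
  have hCTT : T_CTT := Pool.Agent.H27.CQ.pf_CTT
  have hDEC : T_DEC := Pool.Agent.H35.CQ.pf_DEC
  have hACT : T_ACT := Pool.Agent.H88.CQ.pf_ACT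
  have hBOR : T_BOR := Pool.Agent.H82.CQ.pf_BOR hLIM
  have hISO : T_ISO := Pool.Agent.H2.CQ.pf_ISO hWTR hWCH
  have hONE : T_ONE := Pool.Agent.H27.CQ.pf_ONE hSIL hMEM hSUB hDEC hACT hISO hBOR
  exact pf_MAIN hALF hFRE hUNI hUN2 hSIM hCLD hLNK hCTT hONE

end Pool.Agent.H71.CQ
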