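import Pool.Agent.H71.CQ.SYN

/-!
# The class in normal form is measurable; the dichotomy for formulas
-/

set_option autoImplicit false

open Set

namespace Pool.Agent.H71.CQ

variable {C : Type} [MeasurableSpace C] {T : Set (Formula C)}

theorem meas_bit (t : Tr T) : Measurable fun f : Tr T → Bool => f t = true :=
  (measurable_pi_apply (X := fun _ : Tr T => Bool) t).eq measurable_const

theorem meas_ev (ψ : Formula C) : Measurable fun f : Tr T → Bool => ev f ψ := by
  unfold ev
  by_cases h : ψ ∈ T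
  · have h1 : (fun f : Tr T → Bool => ∃ h : ψ ∈ T, f (.sub ⟨ψ, h⟩) = true) =
        fun f : Tr T → Bool => f (.sub ⟨ψ, h⟩) = true := by
      funext s
      exact propext ⟨fun ⟨_, h2⟩ => h2, fun h2 => ⟨h, h2⟩⟩
    rw [h1]
    exact meas_bit _
  · have h1 : (fun f : Tr T → Bool => ∃ h : ψ ∈ T, f (.sub ⟨ψ, h⟩) = true) =
        fun _ => False := by
      funext s
      exact propext ⟨fun ⟨h2, _⟩ => h h2, fun h2 => h2.elim⟩
    rw [h1]
    exact measurable_const

theorem meas_evc (k : ℕ) (ψ : Formula C) : Measurable fun f : Tr T → Bool => evc f k ψ := by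
  unfold evc
  by_cases h : ψ ∈ T
  · have h1 : (fun f : Tr T → Bool => ∃ h : ψ ∈ T, f (.cnt k (.sub ⟨ψ, h⟩)) = true) =
        fun f : Tr T → Bool => f (.cnt k (.sub ⟨ψ, h⟩)) = true := by
      funext s
      exact propext ⟨fun ⟨_, h2⟩ => h2, fun h2 => ⟨h, h2⟩⟩
    rw [h1]
    exact meas_bit _
  · have h1 : (fun f : Tr T → Bool => ∃ h : ψ ∈ T, f (.cnt k (.sub ⟨ψ, h⟩)) = true) =
        fun _ => False := by
      funext s
      exact propext ⟨fun ⟨h2, _⟩ => h h2, fun h2 => h2.elim⟩
    rw [h1]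
    exact measurable_const

theorem meas_evs (k : ℕ) (ψ : Formula C) : Measurable fun f : Tr T → Bool => evs f k ψ := by
  unfold evs
  by_cases h : ψ ∈ T
  · have h1 : (fun f : Tr T → Bool => ∃ h : ψ ∈ T,
        f (.sw (.cnt k (.sw (.sub ⟨ψ, h⟩)))) = true) =
        fun f : Tr T → Bool => f (.sw (.cnt k (.sw (.sub ⟨ψ, h⟩)))) = true := by
      funext s
      exact propext ⟨fun ⟨_, h2⟩ => h2, fun h2 => ⟨h, h2⟩⟩
    rw [h1]
    exact meas_bit _
  · have h1 : (fun f : Tr T → Bool => ∃ h : ψ ∈ T,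
        f (.sw (.cnt k (.sw (.sub ⟨ψ, h⟩)))) = true) = fun _ => False := by
      funext s
      exact propext ⟨fun ⟨h2, _⟩ => h h2, fun h2 => h2.elim⟩
    rw [h1]
    exact measurable_const

theorem meas_le_nuT (n : ℕ) (t : Tr T) :
    Measurable fun f : Tr T → Bool => (n : ℕ∞) ≤ nuT f t := by
  cases n with
  | zero =>
    have h1 : (fun f : Tr T → Bool => ((0 : ℕ) : ℕ∞) ≤ nuT f t) = fun _ => True := by
      funext f
      simp
    rw [h1]
    exact measurable_const
  | succ n =>
    have h1 : (fun f : Tr T → Bool => ((n + 1 : ℕ) : ℕ∞) ≤ nuT f t) =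
        fun f : Tr T → Bool => ∃ m, n < m ∧ f (.cnt m t) = true := by
      funext f
      exact propext (succ_le_nuT f t n)
    rw [h1]
    exact Measurable.exists fun m => measurable_const.and (meas_bit _)

theorem meas_nuT (t : Tr T) : Measurable fun f : Tr T → Bool => nuT f t := by
  refine measurable_to_countable' fun k => ?_
  have h1 : (fun f : Tr T → Bool => nuT f t) ⁻¹' {k} =
      {f | ∀ n : ℕ, (n : ℕ∞) ≤ nuT f t ↔ (n : ℕ∞) ≤ k} := by
    ext f
    constructor
    · intro h n
      rw [show nuT f t = k from h]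
    · intro h
      exact ENat.eq_of_forall_natCast_le_iff h
  rw [h1]
  exact measurableSet_setOfPred.2 (Measurable.forall fun n => (meas_le_nuT n t).iff measurable_const)

theorem meas_condS {r : (ℕ → Bool) → C} (hr : Measurable r) (ψ : Formula C) :
    Measurable fun f : Tr T → Bool => CondS r f ψ := by
  cases ψ with
  | label B hB i j =>
    refine (meas_ev _).iff ?_
    have h1 : Measurable fun f : Tr T → Bool => r fun n => f (bt i j n) :=
      hr.comp (measurable_pi_lambda _ fun n => measurable_pi_apply _)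
    exact measurableSet_setOfPred.1 (h1 hB)
  | equal i j => exact (meas_ev _).iff (measurable_const.or (meas_bit _))
  | not θ => exact (meas_ev _).iff (meas_ev _).not
  | conj θ => exact (meas_ev _).iff (Measurable.forall fun n => meas_ev _)
  | cnt k i θ =>
    refine (meas_ev _).iff ?_
    split_ifs
    · exact meas_evs _ _
    · exact meas_evc _ _

theorem meas_uc [Countable T] {i : C → ℕ → Bool} {r : (ℕ → Bool) → C} (hi : Measurable i)
    (hr : Measurable r) (φ : Formula C) : MeasurableSet {f : Tr T → Bool | Uc i r φ f} := by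
  have h1 : {f : Tr T → Bool | Uc i r φ f} = {f | (∀ t, f (.not t) = true ↔ ¬ f t = true) ∧
      (∀ t t', f (.and t t') = true ↔ (f t = true ∧ f t' = true)) ∧ f .tt = true ∧
      (∀ (n : ℕ) t, f (.cnt n t) = true ↔ (n : ℕ∞) ≤ nuT f t) ∧
      (∀ (n : ℕ) t, f (.cnt n t) = true ↔ f (.dg (.cnt n t)) = true) ∧
      (∀ (n : ℕ) t, f (.cnt n t) = true ↔ f (.cnt n (tl [(t, true)])) = true) ∧
      (∀ ψ : T, CondS r f ψ.1) ∧ ev f φ ∧
      i (r fun n => f (.lab n)) = fun n => f (.lab n)} := by
    ext f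
    exact ⟨fun h => ⟨h.not, h.and, h.tt, h.cnt, h.dg, h.one, h.sub, h.ev, h.ran⟩,
      fun ⟨a1, a2, a3, a4, a5, a6, a7, a8, a9⟩ => ⟨a1, a2, a3, a4, a5, a6, a7, a8, a9⟩⟩
  rw [h1]
  refine measurableSet_setOfPred.2 ?_
  refine (Measurable.forall fun t => (meas_bit _).iff (meas_bit _).not).and ?_
  refine (Measurable.forall fun t => Measurable.forall fun t' =>
    (meas_bit _).iff ((meas_bit _).and (meas_bit _))).and ?_
  refine (meas_bit _).and ?_
  refine (Measurable.forall fun n => Measurable.forall fun t =>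
    (meas_bit _).iff (meas_le_nuT n t)).and ?_
  refine (Measurable.forall fun n => Measurable.forall fun t =>
    (meas_bit _).iff (meas_bit _)).and ?_
  refine (Measurable.forall fun n => Measurable.forall fun t =>
    (meas_bit _).iff (meas_bit _)).and ?_
  refine (Measurable.forall fun ψ => meas_condS hr _).and ?_
  refine (meas_ev _).and ?_
  have h2 : Measurable fun f : Tr T → Bool => fun n => f (.lab n) :=
    measurable_pi_lambda _ fun n => measurable_pi_apply _
  exact (hi.comp (hr.comp h2)).eq h2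

theorem ok_NT [Countable T] {i : C → ℕ → Bool} {r : (ℕ → Bool) → C} (hi : Measurable i)
    (hr : Measurable r) (φ : Formula C) {ι : ℕ → List (Tr T × Bool)}
    (hι : Function.Surjective ι) : (NT i r φ ι).Ok := by
  refine ⟨⟨fun l l' h => ?_, fun m n => ?_⟩, ?_, ?_, ?_, meas_uc hi hr φ, fun n => ?_, fun n => ?_⟩
  · obtain ⟨t, ht⟩ := Function.ne_iff.1 h
    obtain ⟨n, hn⟩ := hι [(t, l t)]
    refine ⟨n, ?_, ?_⟩
    · change ∀ p ∈ ι n, l p.1 = p.2
      rw [hn, List.forall_mem_singleton]
    · intro h1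
      change ∀ p ∈ ι n, l' p.1 = p.2 at h1
      rw [hn, List.forall_mem_singleton] at h1
      exact ht h1.symm
  · obtain ⟨k, hk⟩ := hι (ι m ++ ι n)
    refine ⟨k, ?_⟩
    ext f
    change (∀ p ∈ ι k, f p.1 = p.2) ↔ (∀ p ∈ ι m, f p.1 = p.2) ∧ ∀ p ∈ ι n, f p.1 = p.2
    rw [hk]
    exact List.forall_mem_append
  · exact measurable_pi_lambda _ fun t => measurable_pi_apply _
  · exact measurable_pi_lambda _ fun t => measurable_pi_apply _
  · exact measurableSet_setOfPred.2 (meas_bit _)
  · change MeasurableSet {f : Tr T → Bool | ∀ p ∈ ι n, f p.1 = p.2}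
    have h1 : {f : Tr T → Bool | ∀ p ∈ ι n, f p.1 = p.2} =
        ⋂ p ∈ {p | p ∈ ι n}, {f : Tr T → Bool | f p.1 = p.2} := by
      ext f
      simp
    rw [h1]
    refine MeasurableSet.biInter (Set.to_countable _) fun p _ => ?_
    exact measurableSet_setOfPred.2
      ((measurable_pi_apply (X := fun _ : Tr T => Bool) p.1).eq measurable_const)
  · exact meas_nuT _

/-- Vaught's conjecture for sentences with two variables and counting quantifiers -/
theorem counting (hM : T_MAIN) [StandardBorelSpace C] (φ : Formula C) :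
    (∃ D' : Set ((Fin 2 → ℕ) → C), D'.Countable ∧ ∀ x, (∀ v, Holds x φ v) →
      ∃ d ∈ D', ∃ g : Equiv.Perm ℕ, ∀ v : Fin 2 → ℕ, d (g ∘ v) = x v) ∨
    ∃ F : (ℕ → Bool) → (Fin 2 → ℕ) → C, Measurable F ∧ (∀ S v, Holds (F S) φ v) ∧
      ∀ S S', (∃ g : Equiv.Perm ℕ, ∀ v : Fin 2 → ℕ, F S' (g ∘ v) = F S v) → S = S' := by
  by_cases hC : Nonempty C
  swap
  · left
    refine ⟨∅, Set.countable_empty, fun x _ => ?_⟩
    exact (hC ⟨x fun _ => 0⟩).elim
  obtain ⟨i, hi, hinj⟩ := MeasurableSpace.measurable_injection_nat_bool_of_countablySeparated C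
  have hemb : MeasurableEmbedding i := hi.measurableEmbedding hinj
  obtain ⟨r, hr, hri⟩ := hemb.exists_measurable_extend measurable_id fun _ => hC
  have hri' : ∀ c, r (i c) = c := fun c => congrFun hri c
  have hT := subs_clo φ
  have hφ := self_mem φ
  have hc : Countable (subs φ) := (subs_countable φ).to_subtype
  obtain ⟨ι, hι⟩ := exists_surjective_nat (List (Tr (subs φ) × Bool))
  rcases hM _ (NT i r φ ι) (ok_NT hi hr φ hι) with ⟨D', hD', h⟩ | ⟨F, hF, hFK, hFi⟩
  · left
    refine ⟨red r '' D', hD'.image _, fun x hx => ?_⟩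
    obtain ⟨d, hd, hiso⟩ := h _ (mem_expa hT hri' hφ hx)
    refine ⟨red r d, ⟨d, hd, rfl⟩, ?_⟩
    have h1 := iso_red (r := r) hiso
    rw [red_expa hri'] at h1
    exact h1
  · right
    refine ⟨fun S => red r (F S), ?_, fun S v => models_red hT hφ hι (hFK S) v, ?_⟩
    · refine measurable_pi_lambda _ fun v => hr.comp (measurable_pi_lambda _ fun n => ?_)
      exact (measurable_pi_apply _).comp ((measurable_pi_apply (v 1)).comp
        ((measurable_pi_apply (v 0)).comp hF))
    · rintro S S' ⟨g, hg⟩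
      by_contra hne
      refine hFi S S' hne ?_
      have h1 := iso_expa (T := subs φ) (i := i) g hg
      rw [expa_red hT hι (hFK S), expa_red hT hι (hFK S')] at h1
      exact h1

end Pool.Agent.H71.CQ
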