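import Pool.Agent.H71.CQ.Targets

/-!
# Basic facts on realised and free labels
-/

set_option autoImplicit false

open Set

namespace Pool.Agent.H71.CQ

variable {L : Type} {N : NF L}

theorem rl_of_mem {e : ℕ → ℕ → L} (h : Mem N e) (x y : ℕ) : e x y ∈ Rl N := ⟨e, x, y, h, rfl⟩

theorem rl_U {l : L} (h : l ∈ Rl N) : l ∈ N.U := by
  obtain ⟨e, x, y, he, rfl⟩ := h
  exact he.U x y

theorem rl_rev {l : L} (h : l ∈ Rl N) : N.rev l ∈ Rl N := by
  obtain ⟨e, x, y, he, rfl⟩ := h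
  exact ⟨e, y, x, he, he.rev x y⟩

theorem rl_rev_rev {l : L} (h : l ∈ Rl N) : N.rev (N.rev l) = l := by
  obtain ⟨e, x, y, he, rfl⟩ := h
  exact he.toCoh.rev_rev x y

theorem rl_dia {l : L} (h : l ∈ Rl N) : N.rev l ∈ N.dia ↔ l ∈ N.dia := by
  obtain ⟨e, x, y, he, rfl⟩ := h
  rw [← he.rev x y, he.dia, he.dia, eq_comm]

theorem fr_rev {p q l : L} (h : l ∈ Fr N p q) : N.rev l ∈ Fr N q p := by
  obtain ⟨h1, h2, h3, h4, h5, h6⟩ := h
  refine ⟨rl_rev h1, h3, ?_, fun h => h4 ((rl_dia h1).1 h), h6, ?_⟩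
  · rw [rl_rev_rev h1, h2]
  · rw [rl_rev_rev h1]
    exact h5

theorem fr_mem {p q : L} (h : (Fr N p q).Nonempty) : fr N p q ∈ Fr N p q := by
  classical
  unfold fr
  rw [dif_pos h]
  exact h.some_mem

theorem fr_eq {p q l : L} (h : (Fr N p q).Subsingleton) (hl : l ∈ Fr N p q) : fr N p q = l :=
  h (fr_mem ⟨l, hl⟩) hl

/-- labels between different components of a member are free -/
theorem fr_of_cm {e : ℕ → ℕ → L} (h : Mem N e) {x y : ℕ} (hx : ¬ Wp N e x) (hy : ¬ Wp N e y)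
    (hc : ¬ Cm N e x y) : e x y ∈ Fr N (e x x) (e y y) := by
  refine ⟨rl_of_mem h x y, (h.src x y).symm, ?_, ?_, op_of_cm hx hy hc, ?_⟩
  · rw [← h.rev x y, ← h.src y x]
  · rw [h.dia]
    rintro rfl
    exact hc (cm_refl x)
  · rw [← h.rev x y]
    exact op_of_cm hy hx fun h' => hc h'.symm

end Pool.Agent.H71.CQ
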