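import Mathlib

/-!
# Classes of structures in normal form for two variables with counting quantifiers
-/

set_option autoImplicit false

open Set

namespace Pool.Agent.H71.CQ

/-- data of a class in normal form -/
structure NF (L : Type) where
  rev : L → L
  src : L → L
  dia : Set L
  U : Set L
  B : ℕ → Set L
  nu : ℕ → L → ℕ∞

variable {L : Type}

/-- the sets `B n` separate the labels and are closed under intersections -/
structure NF.Sep (N : NF L) : Prop where
  sep : ∀ l l' : L, l ≠ l' → ∃ n, l ∈ N.B n ∧ l' ∉ N.B n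
  inter : ∀ m n, ∃ k, N.B k = N.B m ∩ N.B n

/-- and the data are measurable -/
structure NF.Ok [MeasurableSpace L] (N : NF L) : Prop extends NF.Sep N where
  rev : Measurable N.rev
  src : Measurable N.src
  dia : MeasurableSet N.dia
  U : MeasurableSet N.U
  B : ∀ n, MeasurableSet (N.B n)
  nu : ∀ n, Measurable (N.nu n)

/-- coherent labels -/
structure Coh (N : NF L) {V : Type} (e : V → V → L) : Prop where
  rev : ∀ x y, e y x = N.rev (e x y)
  src : ∀ x y, e x x = N.src (e x y)
  dia : ∀ x y, e x y ∈ N.dia ↔ x = y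
  U : ∀ x y, e x y ∈ N.U

/-- members of the class (on any set) -/
structure Mem (N : NF L) {V : Type} (e : V → V → L) : Prop extends Coh N e where
  cnt : ∀ n x, {y | e x y ∈ N.B n}.encard = N.nu n (e x x)

/-- an isomorphism -/
def IsIso {V V' : Type} (e : V → V → L) (e' : V' → V' → L) (g : V ≃ V') : Prop :=
  ∀ x y, e' (g x) (g y) = e x y

/-- isomorphic structures -/
def Iso {V V' : Type} (e : V → V → L) (e' : V' → V' → L) : Prop := ∃ g : V ≃ V', IsIso e e' g

/-- perfectly many types -/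
def Perf [MeasurableSpace L] (N : NF L) : Prop :=
  ∃ F : (ℕ → Bool) → ℕ → ℕ → L, Measurable F ∧ (∀ u, Mem N (F u)) ∧
    ∀ u v, u ≠ v → ¬ Iso (F u) (F v)

/-- open labels -/
def Op (N : NF L) (l : L) : Prop := ∀ n, l ∈ N.B n → N.nu n (N.src l) = ⊤

/-- realised labels -/
def Rl (N : NF L) : Set L := {l | ∃ (e : ℕ → ℕ → L) (x y : ℕ), Mem N e ∧ e x y = l}

/-- labels which are free for two colours -/
def Fr (N : NF L) (p q : L) : Set L :=
  {l | l ∈ Rl N ∧ N.src l = p ∧ N.src (N.rev l) = q ∧ l ∉ N.dia ∧ Op N l ∧ Op N (N.rev l)}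

/-- the points of a colour -/
def Srt {V : Type} (e : V → V → L) (q : L) : Set V := {x | e x x = q}

/-- the algebraic points -/
inductive Wp (N : NF L) {V : Type} (e : V → V → L) : V → Prop
  | base (x : V) (h : (Srt e (e x x)).Finite) : Wp N e x
  | step (x y : V) (hx : Wp N e x) (h : ¬ Op N (e x y)) : Wp N e y

/-- adjacent points which are not algebraic -/
def Adj (N : NF L) {V : Type} (e : V → V → L) (x y : V) : Prop :=
  ¬ Wp N e x ∧ ¬ Wp N e y ∧ (¬ Op N (e x y) ∨ ¬ Op N (e y x))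

/-- points of the same component -/
def Cm (N : NF L) {V : Type} (e : V → V → L) (x y : V) : Prop :=
  Relation.ReflTransGen (Adj N e) x y

/-- isomorphisms of the algebraic parts -/
def WIso (N : NF L) {V V' : Type} (e : V → V → L) (e' : V' → V' → L)
    (g : {x // Wp N e x} ≃ {x // Wp N e' x}) : Prop := ∀ x y, e' (g x) (g y) = e x y

/-- the components of `x` and `x'` are isomorphic over `g` -/
def PI (N : NF L) {V V' : Type} (e : V → V → L) (e' : V' → V' → L)
    (g : {x // Wp N e x} ≃ {x // Wp N e' x}) (x : V) (x' : V') : Prop :=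
  ∃ f : {y // Cm N e x y} ≃ {y // Cm N e' x' y}, (∀ y z, e' (f y) (f z) = e y z) ∧
    ∀ k y, e' (g k) (f y) = e k y

/-- the same sorts are infinite and the algebraic parts are isomorphic -/
def Sim (N : NF L) {V V' : Type} (e : V → V → L) (e' : V' → V' → L) : Prop :=
  (∀ q, (Srt e q).Infinite ↔ (Srt e' q).Infinite) ∧
    ∃ g : {x // Wp N e x} ≃ {x // Wp N e' x}, WIso N e e' g

/-- inequivalent pieces: there is no isomorphism of the components which maps the algebraic parts
onto each other -/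
def TwI (N : NF L) {V V' : Type} (e : V → V → L) (e' : V' → V' → L) (x : V) (x' : V') : Prop :=
  ∃ g : {x // Wp N e x} ≃ {x // Wp N e' x}, WIso N e e' g ∧ PI N e e' g x x'

/-- the points of the component of `x` linked to `k` distinguish `k` from a conjugate -/
def Lk (N : NF L) {V : Type} (e : V → V → L) (x : V) (k : {x // Wp N e x}) : Prop :=
  ∃ h : {x // Wp N e x} ≃ {x // Wp N e x}, WIso N e e h ∧ ∃ y, Cm N e x y ∧
    e k y ≠ e (h k) y

/-! ### basic facts -/

section Basic

variable {N : NF L} {V V' V'' : Type} {e : V → V → L} {e' : V' → V' → L} {e'' : V'' → V'' → L}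

theorem Coh.tgt (h : Coh N e) (x y : V) : e y y = N.src (N.rev (e x y)) := by
  rw [← h.rev x y]
  exact h.src y x

theorem Coh.rev_rev (h : Coh N e) (x y : V) : N.rev (N.rev (e x y)) = e x y := by
  rw [← h.rev x y, ← h.rev y x]

theorem isIso_refl : IsIso e e (Equiv.refl V) := fun _ _ => rfl

theorem IsIso.symm {g : V ≃ V'} (h : IsIso e e' g) : IsIso e' e g.symm := by
  intro x y
  rw [← h, g.apply_symm_apply, g.apply_symm_apply]

theorem IsIso.trans {g : V ≃ V'} {g' : V' ≃ V''} (h : IsIso e e' g) (h' : IsIso e' e'' g') :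
    IsIso e e'' (g.trans g') := fun x y => (h' _ _).trans (h x y)

theorem iso_refl (e : V → V → L) : Iso e e := ⟨_, isIso_refl⟩

theorem Iso.symm (h : Iso e e') : Iso e' e := by
  obtain ⟨g, hg⟩ := h
  exact ⟨_, hg.symm⟩

theorem Iso.trans (h : Iso e e') (h' : Iso e' e'') : Iso e e'' := by
  obtain ⟨g, hg⟩ := h
  obtain ⟨g', hg'⟩ := h'
  exact ⟨_, hg.trans hg'⟩

/-- transport of a structure -/
theorem isIso_comap (g : V' ≃ V) : IsIso (fun x y : V' => e (g x) (g y)) e g := fun _ _ => rfl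

theorem IsIso.coh {g : V ≃ V'} (h : IsIso e e' g) (he : Coh N e) : Coh N e' := by
  have h1 : ∀ x y, e' x y = e (g.symm x) (g.symm y) := fun x y => (h.symm x y).symm
  refine ⟨fun x y => ?_, fun x y => ?_, fun x y => ?_, fun x y => ?_⟩
  · rw [h1, h1, he.rev]
  · rw [h1, h1 x y, ← he.src]
  · rw [h1, he.dia, g.symm.injective.eq_iff]
  · rw [h1]
    exact he.U _ _

theorem IsIso.mem {g : V ≃ V'} (h : IsIso e e' g) (he : Mem N e) : Mem N e' := by
  refine ⟨h.coh he.toCoh, fun n x => ?_⟩
  have h1 : {y | e' x y ∈ N.B n} = g '' {y | e (g.symm x) y ∈ N.B n} := by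
    ext y
    constructor
    · intro hy
      refine ⟨g.symm y, ?_, g.apply_symm_apply y⟩
      change e (g.symm x) (g.symm y) ∈ N.B n
      rw [h.symm x y]
      exact hy
    · rintro ⟨z, hz, rfl⟩
      change e' x (g z) ∈ N.B n
      rw [← h.symm x (g z), g.symm_apply_apply]
      exact hz
  rw [h1, g.injective.injOn.encard_image, he.cnt, h.symm]

theorem IsIso.srt {g : V ≃ V'} (h : IsIso e e' g) (q : L) : Srt e' q = g '' Srt e q := by
  ext y
  constructor
  · intro hy
    refine ⟨g.symm y, ?_, g.apply_symm_apply y⟩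
    change e (g.symm y) (g.symm y) = q
    rw [h.symm y y]
    exact hy
  · rintro ⟨z, hz, rfl⟩
    change e' (g z) (g z) = q
    rw [h z z]
    exact hz

theorem IsIso.srt_fin {g : V ≃ V'} (h : IsIso e e' g) (q : L) :
    (Srt e' q).Finite ↔ (Srt e q).Finite := by
  rw [h.srt q]
  exact Set.finite_image_iff g.injective.injOn

theorem IsIso.wp1 {g : V ≃ V'} (h : IsIso e e' g) {x : V} (hx : Wp N e x) : Wp N e' (g x) := by
  induction hx with
  | base x hf =>
    refine Wp.base _ ?_
    rw [h x x, h.srt_fin]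
    exact hf
  | step x y _ hc ih =>
    refine Wp.step (g x) (g y) ih ?_
    rw [h x y]
    exact hc

theorem IsIso.wp {g : V ≃ V'} (h : IsIso e e' g) (x : V) : Wp N e' (g x) ↔ Wp N e x := by
  refine ⟨fun hx => ?_, h.wp1⟩
  have h1 := h.symm.wp1 hx
  rwa [g.symm_apply_apply] at h1

theorem IsIso.adj {g : V ≃ V'} (h : IsIso e e' g) (x y : V) :
    Adj N e' (g x) (g y) ↔ Adj N e x y := by
  unfold Adj
  rw [h.wp, h.wp, h x y, h y x]

theorem IsIso.cm1 {g : V ≃ V'} (h : IsIso e e' g) {x y : V} (hx : Cm N e x y) :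
    Cm N e' (g x) (g y) := by
  induction hx with
  | refl => exact Relation.ReflTransGen.refl
  | tail _ hc ih => exact ih.tail ((h.adj _ _).2 hc)

theorem IsIso.cm {g : V ≃ V'} (h : IsIso e e' g) (x y : V) :
    Cm N e' (g x) (g y) ↔ Cm N e x y := by
  refine ⟨fun hx => ?_, h.cm1⟩
  have h1 := h.symm.cm1 hx
  rwa [g.symm_apply_apply, g.symm_apply_apply] at h1

theorem Adj.symm {x y : V} (h : Adj N e x y) : Adj N e y x := ⟨h.2.1, h.1, h.2.2.symm⟩

theorem cm_refl (x : V) : Cm N e x x := Relation.ReflTransGen.refl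

theorem Cm.symm {x y : V} (h : Cm N e x y) : Cm N e y x := by
  induction h with
  | refl => exact Relation.ReflTransGen.refl
  | tail _ hc ih => exact Relation.ReflTransGen.head hc.symm ih

theorem Cm.trans {x y z : V} (h : Cm N e x y) (h' : Cm N e y z) : Cm N e x z :=
  Relation.ReflTransGen.trans h h'

theorem Cm.not_wp {x y : V} (h : Cm N e x y) (hx : ¬ Wp N e x) : ¬ Wp N e y := by
  induction h with
  | refl => exact hx
  | tail _ hc _ => exact hc.2.1

/-- the colours of points which are not algebraic are infinite sorts -/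
theorem srt_inf {x : V} (hx : ¬ Wp N e x) : (Srt e (e x x)).Infinite := fun h => hx (Wp.base x h)

/-- labels from algebraic to other points are open -/
theorem op_of_wp {k x : V} (hk : Wp N e k) (hx : ¬ Wp N e x) : Op N (e k x) := by
  by_contra h
  exact hx (Wp.step k x hk h)

/-- labels between components are open -/
theorem op_of_cm {x y : V} (hx : ¬ Wp N e x) (hy : ¬ Wp N e y) (h : ¬ Cm N e x y) :
    Op N (e x y) := by
  by_contra h1
  exact h (Relation.ReflTransGen.single ⟨hx, hy, Or.inl h1⟩)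

/-- the restriction of an isomorphism to the algebraic parts -/
def wmap {g : V ≃ V'} (h : IsIso e e' g) : {x // Wp N e x} ≃ {x // Wp N e' x} :=
  g.subtypeEquiv fun x => (h.wp x).symm

theorem wmap_iso {g : V ≃ V'} (h : IsIso e e' g) : WIso N e e' (wmap (N := N) h) :=
  fun x y => h x y

theorem IsIso.pi {g : V ≃ V'} (h : IsIso e e' g) (x : V) :
    PI N e e' (wmap (N := N) h) x (g x) :=
  ⟨g.subtypeEquiv fun y => (h.cm x y).symm, fun y z => h y z, fun k y => h k y⟩

theorem WIso.symm {g : {x // Wp N e x} ≃ {x // Wp N e' x}} (h : WIso N e e' g) :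
    WIso N e' e g.symm := by
  intro x y
  rw [← h, g.apply_symm_apply, g.apply_symm_apply]

theorem WIso.trans {g : {x // Wp N e x} ≃ {x // Wp N e' x}}
    {g' : {x // Wp N e' x} ≃ {x // Wp N e'' x}} (h : WIso N e e' g) (h' : WIso N e' e'' g') :
    WIso N e e'' (g.trans g') := fun x y => (h' _ _).trans (h x y)

theorem pi_refl (x : V) : PI N e e (Equiv.refl _) x x :=
  ⟨Equiv.refl _, fun _ _ => rfl, fun _ _ => rfl⟩

theorem PI.symm {g : {x // Wp N e x} ≃ {x // Wp N e' x}} {x : V} {x' : V'}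
    (h : PI N e e' g x x') : PI N e' e g.symm x' x := by
  obtain ⟨f, h1, h2⟩ := h
  refine ⟨f.symm, fun y z => ?_, fun k y => ?_⟩
  · rw [← h1, f.apply_symm_apply, f.apply_symm_apply]
  · rw [← h2, g.apply_symm_apply, f.apply_symm_apply]

theorem PI.trans {g : {x // Wp N e x} ≃ {x // Wp N e' x}}
    {g' : {x // Wp N e' x} ≃ {x // Wp N e'' x}} {x : V} {x' : V'} {x'' : V''}
    (h : PI N e e' g x x') (h' : PI N e' e'' g' x' x'') : PI N e e'' (g.trans g') x x'' := by
  obtain ⟨f, h1, h2⟩ := h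
  obtain ⟨f', h1', h2'⟩ := h'
  exact ⟨f.trans f', fun y z => (h1' _ _).trans (h1 y z), fun k y => (h2' _ _).trans (h2 k y)⟩

theorem TwI.symm {x : V} {x' : V'} (h : TwI N e e' x x') : TwI N e' e x' x := by
  obtain ⟨g, h1, h2⟩ := h
  exact ⟨g.symm, h1.symm, h2.symm⟩

theorem TwI.trans {x : V} {x' : V'} {x'' : V''} (h : TwI N e e' x x')
    (h' : TwI N e' e'' x' x'') : TwI N e e'' x x'' := by
  obtain ⟨g, h1, h2⟩ := h
  obtain ⟨g', h1', h2'⟩ := h'
  exact ⟨g.trans g', h1.trans h1', h2.trans h2'⟩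

theorem twI_refl (x : V) : TwI N e e x x := ⟨Equiv.refl _, fun _ _ => rfl, pi_refl x⟩

theorem IsIso.twI {g : V ≃ V'} (h : IsIso e e' g) (x : V) : TwI N e e' x (g x) :=
  ⟨_, wmap_iso h, h.pi x⟩

theorem sim_refl (e : V → V → L) : Sim N e e :=
  ⟨fun _ => Iff.rfl, Equiv.refl _, fun _ _ => rfl⟩

theorem Sim.symm (h : Sim N e e') : Sim N e' e := by
  obtain ⟨h1, g, hg⟩ := h
  exact ⟨fun q => (h1 q).symm, g.symm, hg.symm⟩

theorem Sim.trans (h : Sim N e e') (h' : Sim N e' e'') : Sim N e e'' := by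
  obtain ⟨h1, g, hg⟩ := h
  obtain ⟨h1', g', hg'⟩ := h'
  exact ⟨fun q => (h1 q).trans (h1' q), g.trans g', hg.trans hg'⟩

theorem Iso.sim (h : Iso e e') : Sim N e e' := by
  obtain ⟨g, hg⟩ := h
  exact ⟨fun q => not_congr (hg.srt_fin q).symm, wmap hg, wmap_iso hg⟩

/-- changing a component inside a class of points -/
theorem PI.of_cm {g : {x // Wp N e x} ≃ {x // Wp N e' x}} {x y : V} {x' y' : V'}
    (h : PI N e e' g x x') (hx : Cm N e x y) (hx' : Cm N e' x' y') : PI N e e' g y y' := by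
  obtain ⟨f, h1, h2⟩ := h
  have a1 : ∀ z, Cm N e x z ↔ Cm N e y z := fun z => ⟨fun h => hx.symm.trans h, fun h => hx.trans h⟩
  have a2 : ∀ z, Cm N e' x' z ↔ Cm N e' y' z := fun z =>
    ⟨fun h => hx'.symm.trans h, fun h => hx'.trans h⟩
  refine ⟨((Equiv.subtypeEquivRight a1).symm.trans f).trans (Equiv.subtypeEquivRight a2),
    fun y z => ?_, fun k y => ?_⟩
  · exact h1 _ _
  · exact h2 _ _

end Basic

end Pool.Agent.H71.CQ
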