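import Pool.Agent.H71.CQ.Basic

/-!
# MAIN. Assembly
-/

set_option autoImplicit false

open Set

namespace Pool.Agent.H71.CQ

theorem pf_MAIN (hALF : T_ALF) (hFRE : T_FRE) (hUNI : T_UNI) (hUN2 : T_UN2) (hSIM : T_SIM)
    (hCLD : T_CLD) (hLNK : T_LNK) (hCTT : T_CTT) (hONE : T_ONE) : T_MAIN := by
  intro L _ _ N hN
  by_cases hP : Perf N
  · exact Or.inr hP
  left
  have f1 : HFre N := hFRE L N hN.toSep (hALF L N hN hP)
  have f2 : HUni N := hUNI L N hN hP f1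
  have f3 : HUn2 N := hUN2 L N hN.toSep f1 f2
  obtain ⟨D, hD, hDm, hDs⟩ := hSIM L N hN hP
  have key : ∀ d : D, ∃ D' : Set (ℕ → ℕ → L), D'.Countable ∧
      ∀ E : ℕ → ℕ → L, Mem N E → Sim N d.1 E → ∃ d' ∈ D', Iso E d' := by
    intro d
    obtain ⟨ι, hι, e, g, x, hR⟩ := hCTT L N hN.toSep d.1 (hDm d.1 d.2)
      (hLNK L N hN hP f1 f2) (hCLD L N hN hP f1 f3 d.1 (hDm d.1 d.2))
    haveI := hι
    exact hONE L N hN hP f1 f3 d.1 ι e g x hR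
  choose D' h1 h2 using key
  haveI := hD.to_subtype
  refine ⟨⋃ d : D, D' d, Set.countable_iUnion h1, fun E hE => ?_⟩
  obtain ⟨d, hd, hs⟩ := hDs E hE
  obtain ⟨d', hd', hi⟩ := h2 ⟨d, hd⟩ E hE hs
  exact ⟨d', Set.mem_iUnion.2 ⟨⟨d, hd⟩, hd'⟩, hi⟩

end Pool.Agent.H71.CQ
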