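import Pool.Agent.H71.CQ.Targets

/-!
# Formulas with two variables and counting quantifiers: the class in normal form
-/

set_option autoImplicit false

open Set

namespace Pool.Agent.H71.CQ

/-- formulas with two variables and counting quantifiers -/
inductive Formula (C : Type) [MeasurableSpace C] : Type
  | label (B : Set C) (hB : MeasurableSet B) (i j : Fin 2) : Formula C
  | equal (i j : Fin 2) : Formula C
  | not (φ : Formula C) : Formula C
  | conj (φ : ℕ → Formula C) : Formula C
  | cnt (n : ℕ) (i : Fin 2) (φ : Formula C) : Formula C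

variable {C : Type} [MeasurableSpace C]

/-- truth -/
def Holds (x : (Fin 2 → ℕ) → C) : Formula C → (Fin 2 → ℕ) → Prop
  | .label B _ i j, v => x ![v i, v j] ∈ B
  | .equal i j, v => v i = v j
  | .not φ, v => ¬ Holds x φ v
  | .conj φ, v => ∀ n, Holds x (φ n) v
  | .cnt n i φ, v => (n : ℕ∞) ≤ {a | Holds x φ (Function.update v i a)}.encard

/-- the formulas below a formula -/
def subs : Formula C → Set (Formula C)
  | .label B hB i j => {.label B hB i j}
  | .equal i j => {.equal i j}
  | .not φ => insert (.not φ) (subs φ)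
  | .conj φ => insert (.conj φ) (⋃ n, subs (φ n))
  | .cnt n i φ => insert (.cnt n i φ) (subs φ)

theorem self_mem (φ : Formula C) : φ ∈ subs φ := by
  cases φ with
  | label B hB i j => exact rfl
  | equal i j => exact rfl
  | not φ => exact Set.mem_insert _ _
  | conj φ => exact Set.mem_insert _ _
  | cnt n i φ => exact Set.mem_insert _ _

theorem subs_countable (φ : Formula C) : (subs φ).Countable := by
  induction φ with
  | label B hB i j => exact Set.countable_singleton _
  | equal i j => exact Set.countable_singleton _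
  | not φ ih => exact ih.insert _
  | conj φ ih => exact (Set.countable_iUnion ih).insert _
  | cnt n i φ ih => exact ih.insert _

/-- closed under taking parts -/
structure Clo (T : Set (Formula C)) : Prop where
  not : ∀ φ, Formula.not φ ∈ T → φ ∈ T
  conj : ∀ φ, Formula.conj φ ∈ T → ∀ n, φ n ∈ T
  cnt : ∀ n i φ, Formula.cnt n i φ ∈ T → φ ∈ T

theorem subs_clo (φ : Formula C) : Clo (subs φ) := by
  induction φ with
  | label B hB i j =>
    refine ⟨fun φ h => ?_, fun φ h => ?_, fun n i φ h => ?_⟩ <;> exact absurd h (by simp [subs])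
  | equal i j =>
    refine ⟨fun φ h => ?_, fun φ h => ?_, fun n i φ h => ?_⟩ <;> exact absurd h (by simp [subs])
  | not φ ih =>
    refine ⟨fun ψ h => ?_, fun ψ h n => ?_, fun k i ψ h => ?_⟩
    · rcases h with h | h
      · injection h with h
        rw [h]
        exact Or.inr (self_mem _)
      · exact Or.inr (ih.not _ h)
    · rcases h with h | h
      · exact absurd h (by simp)
      · exact Or.inr (ih.conj _ h n)
    · rcases h with h | h
      · exact absurd h (by simp)
      · exact Or.inr (ih.cnt _ _ _ h)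
  | conj φ ih =>
    refine ⟨fun ψ h => ?_, fun ψ h n => ?_, fun k i ψ h => ?_⟩
    · rcases h with h | h
      · exact absurd h (by simp)
      · obtain ⟨m, hm⟩ := Set.mem_iUnion.1 h
        exact Or.inr (Set.mem_iUnion.2 ⟨m, (ih m).not _ hm⟩)
    · rcases h with h | h
      · injection h with h
        rw [h]
        exact Or.inr (Set.mem_iUnion.2 ⟨n, self_mem _⟩)
      · obtain ⟨m, hm⟩ := Set.mem_iUnion.1 h
        exact Or.inr (Set.mem_iUnion.2 ⟨m, (ih m).conj _ hm n⟩)
    · rcases h with h | h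
      · exact absurd h (by simp)
      · obtain ⟨m, hm⟩ := Set.mem_iUnion.1 h
        exact Or.inr (Set.mem_iUnion.2 ⟨m, (ih m).cnt _ _ _ hm⟩)
  | cnt k i φ ih =>
    refine ⟨fun ψ h => ?_, fun ψ h n => ?_, fun k i ψ h => ?_⟩
    · rcases h with h | h
      · exact absurd h (by simp)
      · exact Or.inr (ih.not _ h)
    · rcases h with h | h
      · exact absurd h (by simp)
      · exact Or.inr (ih.conj _ h n)
    · rcases h with h | h
      · injection h with h0 h1 h2
        rw [h2]
        exact Or.inr (self_mem _)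
      · exact Or.inr (ih.cnt _ _ _ h)

theorem upd0 (a b c : ℕ) : Function.update ![a, b] 0 c = ![c, b] := by
  funext i
  fin_cases i <;> rfl

theorem upd1 (a b c : ℕ) : Function.update ![a, b] 1 c = ![a, c] := by
  funext i
  fin_cases i <;> rfl

theorem cases2 (i : Fin 2) : i = 0 ∨ i = 1 := by
  fin_cases i
  · exact Or.inl rfl
  · exact Or.inr rfl

theorem eta2 (v : Fin 2 → ℕ) : ![v 0, v 1] = v := by
  funext i
  fin_cases i <;> rfl

/-- terms: the predicates obtained from the predicates in `S` -/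
inductive Tr (S : Type) : Type
  | sub (s : S) : Tr S
  | lab (j : ℕ) : Tr S
  | eq : Tr S
  | tt : Tr S
  | not (t : Tr S) : Tr S
  | and (t t' : Tr S) : Tr S
  | sw (t : Tr S) : Tr S
  | dg (t : Tr S) : Tr S
  | cnt (n : ℕ) (t : Tr S) : Tr S
  deriving Encodable

instance {S : Type} [Countable S] : Countable (Tr S) := by
  have := Encodable.ofCountable S
  infer_instance

section Sem

variable {T : Set (Formula C)}

/-- the predicate of a term -/
def Q (i : C → ℕ → Bool) (x : (Fin 2 → ℕ) → C) : Tr T → ℕ → ℕ → Prop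
  | .sub s, a, b => Holds x s.1 ![a, b]
  | .lab j, a, b => i (x ![a, b]) j = true
  | .eq, a, b => a = b
  | .tt, _, _ => True
  | .not t, a, b => ¬ Q i x t a b
  | .and t t', a, b => Q i x t a b ∧ Q i x t' a b
  | .sw t, a, b => Q i x t b a
  | .dg t, a, _ => Q i x t a a
  | .cnt n t, a, _ => (n : ℕ∞) ≤ {c | Q i x t a c}.encard

/-- the number coded by the truth values of the counting terms -/
noncomputable def nuT (f : Tr T → Bool) (t : Tr T) : ℕ∞ :=
  ⨆ m : {m : ℕ // f (.cnt m t) = true}, ((m : ℕ) : ℕ∞)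

theorem succ_le_nuT (f : Tr T → Bool) (t : Tr T) (n : ℕ) :
    ((n + 1 : ℕ) : ℕ∞) ≤ nuT f t ↔ ∃ m, n < m ∧ f (.cnt m t) = true := by
  unfold nuT
  rw [Nat.cast_add, Nat.cast_one, ENat.natCast_add_one_le_iff, lt_iSup_iff]
  constructor
  · rintro ⟨⟨m, hm⟩, h⟩
    exact ⟨m, by exact_mod_cast h, hm⟩
  · rintro ⟨m, h, hm⟩
    exact ⟨⟨m, hm⟩, by exact_mod_cast h⟩

theorem nuT_eq {f : Tr T → Bool} {t : Tr T} {K : ℕ∞}
    (h : ∀ m : ℕ, f (.cnt m t) = true ↔ (m : ℕ∞) ≤ K) : nuT f t = K := by
  refine ENat.eq_of_forall_natCast_le_iff fun n => ?_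
  cases n with
  | zero => simp
  | succ n =>
    rw [succ_le_nuT]
    constructor
    · rintro ⟨m, hm, h1⟩
      exact le_trans (by exact_mod_cast hm) ((h m).1 h1)
    · intro h1
      exact ⟨n + 1, Nat.lt_succ_self n, (h _).2 h1⟩

/-- the term of a pair -/
def lit (p : Tr T × Bool) : Tr T := if p.2 = true then p.1 else .not p.1

/-- the conjunction -/
def tl (s : List (Tr T × Bool)) : Tr T := s.foldr (fun p u => .and (lit p) u) .tt

/-- the value of a formula at a label -/
def ev (f : Tr T → Bool) (ψ : Formula C) : Prop := ∃ h : ψ ∈ T, f (.sub ⟨ψ, h⟩) = true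

/-- the value of a counting quantifier for the second variable -/
def evc (f : Tr T → Bool) (k : ℕ) (ψ : Formula C) : Prop :=
  ∃ h : ψ ∈ T, f (.cnt k (.sub ⟨ψ, h⟩)) = true

/-- the value of a counting quantifier for the first variable -/
def evs (f : Tr T → Bool) (k : ℕ) (ψ : Formula C) : Prop :=
  ∃ h : ψ ∈ T, f (.sw (.cnt k (.sw (.sub ⟨ψ, h⟩)))) = true

/-- the term of a bit of a label -/
def bt (i j : Fin 2) (n : ℕ) : Tr T :=
  if i = 0 then (if j = 0 then .dg (.lab n) else .lab n)
  else (if j = 0 then .sw (.lab n) else .sw (.dg (.lab n)))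

/-- the conditions given by a formula -/
def CondS (r : (ℕ → Bool) → C) (f : Tr T → Bool) : Formula C → Prop
  | .label B hB i j => ev f (.label B hB i j) ↔ r (fun n => f (bt i j n)) ∈ B
  | .equal i j => ev f (.equal i j) ↔ (i = j ∨ f .eq = true)
  | .not θ => ev f (.not θ) ↔ ¬ ev f θ
  | .conj θ => ev f (.conj θ) ↔ ∀ n, ev f (θ n)
  | .cnt k i θ => ev f (.cnt k i θ) ↔ (if i = 0 then evs f k θ else evc f k θ)

/-- the conditions on labels -/
structure Uc (i : C → ℕ → Bool) (r : (ℕ → Bool) → C) (φ : Formula C) (f : Tr T → Bool) :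
    Prop where
  not : ∀ t, f (.not t) = true ↔ ¬ f t = true
  and : ∀ t t', f (.and t t') = true ↔ (f t = true ∧ f t' = true)
  tt : f .tt = true
  cnt : ∀ (n : ℕ) t, f (.cnt n t) = true ↔ (n : ℕ∞) ≤ nuT f t
  dg : ∀ (n : ℕ) t, f (.cnt n t) = true ↔ f (.dg (.cnt n t)) = true
  one : ∀ (n : ℕ) t, f (.cnt n t) = true ↔ f (.cnt n (tl [(t, true)])) = true
  sub : ∀ ψ : T, CondS r f ψ.1
  ev : ev f φ
  ran : i (r fun n => f (.lab n)) = fun n => f (.lab n)

/-- the class in normal form -/
noncomputable def NT (i : C → ℕ → Bool) (r : (ℕ → Bool) → C) (φ : Formula C)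
    (ι : ℕ → List (Tr T × Bool)) : NF (Tr T → Bool) where
  rev := fun f t => f (.sw t)
  src := fun f t => f (.dg t)
  dia := {f | f .eq = true}
  U := {f | Uc i r φ f}
  B := fun n => {f | ∀ p ∈ ι n, f p.1 = p.2}
  nu := fun n f => nuT f (tl (ι n))

/-- the value of a conjunction -/
theorem tl_iff {i : C → ℕ → Bool} {r : (ℕ → Bool) → C} {φ : Formula C} {f : Tr T → Bool}
    (h : Uc i r φ f) (s : List (Tr T × Bool)) : f (tl s) = true ↔ ∀ p ∈ s, f p.1 = p.2 := by
  induction s with
  | nil => exact ⟨fun _ p hp => absurd hp (by simp), fun _ => h.tt⟩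
  | cons p s ih =>
    change f (.and (lit p) (tl s)) = true ↔ _
    rw [h.and, ih, List.forall_mem_cons]
    refine and_congr_left' ?_
    rcases p with ⟨t, b⟩
    cases b with
    | true => exact Iff.rfl
    | false =>
      change f (.not t) = true ↔ f t = false
      rw [h.not, Bool.not_eq_true]

open Classical in
/-- the expansion of a structure -/
noncomputable def expa (T : Set (Formula C)) (i : C → ℕ → Bool) (x : (Fin 2 → ℕ) → C) (a b : ℕ)
    (t : Tr T) : Bool := decide (Q i x t a b)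

/-- the reduct of a structure -/
def red (r : (ℕ → Bool) → C) (e : ℕ → ℕ → Tr T → Bool) (v : Fin 2 → ℕ) : C :=
  r fun n => e (v 0) (v 1) (.lab n)

theorem expa_iff {i : C → ℕ → Bool} {x : (Fin 2 → ℕ) → C} {a b : ℕ} {t : Tr T} :
    expa T i x a b t = true ↔ Q i x t a b := by
  classical
  exact decide_eq_true_iff

theorem expa_lab (i : C → ℕ → Bool) (x : (Fin 2 → ℕ) → C) (a b n : ℕ) :
    expa T i x a b (.lab n) = i (x ![a, b]) n := by
  refine Bool.eq_iff_iff.2 ?_
  rw [expa_iff]
  exact Iff.rfl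

theorem red_expa {i : C → ℕ → Bool} {r : (ℕ → Bool) → C} (hr : ∀ c, r (i c) = c)
    (x : (Fin 2 → ℕ) → C) : red r (expa T i x) = x := by
  funext v
  change r (fun n => expa T i x (v 0) (v 1) (.lab n)) = x v
  have h : (fun n => expa T i x (v 0) (v 1) (.lab n)) = i (x v) := by
    funext n
    rw [expa_lab, eta2]
  rw [h, hr]

theorem ev_expa {i : C → ℕ → Bool} {x : (Fin 2 → ℕ) → C} {a b : ℕ} {ψ : Formula C} (h : ψ ∈ T) :
    ev (expa T i x a b) ψ ↔ Holds x ψ ![a, b] := by
  constructor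
  · rintro ⟨_, h2⟩
    exact expa_iff.1 h2
  · intro h2
    exact ⟨h, expa_iff.2 h2⟩

theorem nuT_expa (i : C → ℕ → Bool) (x : (Fin 2 → ℕ) → C) (a b : ℕ) (t : Tr T) :
    nuT (expa T i x a b) t = {c | Q i x t a c}.encard := nuT_eq fun _ => expa_iff

/-- the expansion satisfies the conditions -/
theorem uc_expa (hT : Clo T) {i : C → ℕ → Bool} {r : (ℕ → Bool) → C} (hr : ∀ c, r (i c) = c)
    {φ : Formula C} (hφ : φ ∈ T) {x : (Fin 2 → ℕ) → C} (hx : ∀ v, Holds x φ v) (a b : ℕ) :
    Uc i r φ (expa T i x a b) := by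
  refine ⟨fun t => ?_, fun t t' => ?_, expa_iff.2 trivial, fun n t => ?_, fun n t => ?_,
    fun n t => ?_, ?_, (ev_expa hφ).2 (hx _), ?_⟩
  · rw [expa_iff, expa_iff]
    exact Iff.rfl
  · rw [expa_iff, expa_iff, expa_iff]
    exact Iff.rfl
  · rw [expa_iff, nuT_expa]
    exact Iff.rfl
  · rw [expa_iff, expa_iff]
    exact Iff.rfl
  · rw [expa_iff, expa_iff]
    change (n : ℕ∞) ≤ {c | Q i x t a c}.encard ↔ (n : ℕ∞) ≤ {c | Q i x t a c ∧ True}.encard
    simp only [and_true]
  · rintro ⟨ψ, hψ⟩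
    cases ψ with
    | label B hB k j =>
      change ev _ _ ↔ _
      rw [ev_expa hψ]
      change x ![(![a, b] : Fin 2 → ℕ) k, (![a, b] : Fin 2 → ℕ) j] ∈ B ↔ _
      have h1 : (fun n => expa T i x a b (bt k j n)) =
          i (x ![(![a, b] : Fin 2 → ℕ) k, (![a, b] : Fin 2 → ℕ) j]) := by
        funext n
        refine Bool.eq_iff_iff.2 ?_
        rw [expa_iff]
        rcases cases2 k with rfl | rfl <;> rcases cases2 j with rfl | rfl <;> exact Iff.rfl
      rw [h1, hr]
    | equal k j =>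
      change ev _ _ ↔ _
      rw [ev_expa hψ, expa_iff]
      change (![a, b] : Fin 2 → ℕ) k = (![a, b] : Fin 2 → ℕ) j ↔ (k = j ∨ a = b)
      rcases cases2 k with rfl | rfl <;> rcases cases2 j with rfl | rfl
      · exact ⟨fun _ => Or.inl rfl, fun _ => rfl⟩
      · exact ⟨fun e => Or.inr e, fun e => e.resolve_left (by decide)⟩
      · exact ⟨fun e => Or.inr e.symm, fun e => (e.resolve_left (by decide)).symm⟩
      · exact ⟨fun _ => Or.inl rfl, fun _ => rfl⟩
    | not θ =>
      change ev _ _ ↔ ¬ ev _ _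
      rw [ev_expa hψ, ev_expa (hT.not _ hψ)]
      exact Iff.rfl
    | conj θ =>
      change ev _ _ ↔ ∀ n, ev _ _
      rw [ev_expa hψ]
      refine forall_congr' fun n => ?_
      rw [ev_expa (hT.conj _ hψ n)]
    | cnt k j θ =>
      have hθ := hT.cnt _ _ _ hψ
      change ev _ _ ↔ _
      rw [ev_expa hψ]
      rcases cases2 j with rfl | rfl
      · rw [if_pos rfl]
        have h1 : evs (expa T i x a b) k θ ↔ (k : ℕ∞) ≤ {c | Holds x θ ![c, b]}.encard := by
          constructor
          · rintro ⟨_, h2⟩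
            exact expa_iff.1 h2
          · intro h2
            exact ⟨hθ, expa_iff.2 h2⟩
        rw [h1]
        change (k : ℕ∞) ≤ {c | Holds x θ (Function.update ![a, b] 0 c)}.encard ↔ _
        simp only [upd0]
      · rw [if_neg (by decide)]
        have h1 : evc (expa T i x a b) k θ ↔ (k : ℕ∞) ≤ {c | Holds x θ ![a, c]}.encard := by
          constructor
          · rintro ⟨_, h2⟩
            exact expa_iff.1 h2
          · intro h2
            exact ⟨hθ, expa_iff.2 h2⟩
        rw [h1]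
        change (k : ℕ∞) ≤ {c | Holds x θ (Function.update ![a, b] 1 c)}.encard ↔ _
        simp only [upd1]
  · have h1 : (fun n => expa T i x a b (.lab n)) = i (x ![a, b]) := by
      funext n
      rw [expa_lab]
    rw [h1, hr]

theorem mem_expa (hT : Clo T) {i : C → ℕ → Bool} {r : (ℕ → Bool) → C} (hr : ∀ c, r (i c) = c)
    {φ : Formula C} (hφ : φ ∈ T) {ι : ℕ → List (Tr T × Bool)} {x : (Fin 2 → ℕ) → C}
    (hx : ∀ v, Holds x φ v) : Mem (NT i r φ ι) (expa T i x) := by
  have hU := fun a b => uc_expa hT hr hφ hx a b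
  refine ⟨⟨fun a b => ?_, fun a b => ?_, fun a b => expa_iff, hU⟩, fun n a => ?_⟩
  · funext t
    refine Bool.eq_iff_iff.2 ?_
    change expa T i x b a t = true ↔ expa T i x a b (.sw t) = true
    rw [expa_iff, expa_iff]
    exact Iff.rfl
  · funext t
    refine Bool.eq_iff_iff.2 ?_
    change expa T i x a a t = true ↔ expa T i x a b (.dg t) = true
    rw [expa_iff, expa_iff]
    exact Iff.rfl
  · change {b | ∀ p ∈ ι n, expa T i x a b p.1 = p.2}.encard = nuT (expa T i x a a) (tl (ι n))
    rw [nuT_expa]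
    congr 1
    ext b
    change (∀ p ∈ ι n, expa T i x a b p.1 = p.2) ↔ Q i x (tl (ι n)) a b
    rw [← tl_iff (hU a b), expa_iff]

/-- counting terms have the right values -/
theorem cnt_mem {i : C → ℕ → Bool} {r : (ℕ → Bool) → C} {φ : Formula C}
    {ι : ℕ → List (Tr T × Bool)} (hι : Function.Surjective ι) {e : ℕ → ℕ → Tr T → Bool}
    (he : Mem (NT i r φ ι) e) (a b k : ℕ) (t : Tr T) :
    e a b (.cnt k t) = true ↔ (k : ℕ∞) ≤ {c | e a c t = true}.encard := by
  have hU : ∀ a b, Uc i r φ (e a b) := he.U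
  obtain ⟨n, hn⟩ := hι [(t, true)]
  have h1 : {c | ∀ p ∈ ι n, e a c p.1 = p.2}.encard = nuT (e a a) (tl (ι n)) := he.cnt n a
  rw [hn] at h1
  have h2 : {c | ∀ p ∈ [(t, true)], e a c p.1 = p.2} = {c | e a c t = true} := by
    ext c
    change (∀ p ∈ [(t, true)], e a c p.1 = p.2) ↔ e a c t = true
    rw [List.forall_mem_singleton]
  rw [h2] at h1
  have h3 : e a a (.cnt k t) = e a b (.dg (.cnt k t)) := congrFun (he.src a b) (.cnt k t)
  rw [(hU a b).dg, ← h3, (hU a a).one, (hU a a).cnt, h1]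

/-- the labels are truth values of formulas -/
theorem truth (hT : Clo T) {i : C → ℕ → Bool} {r : (ℕ → Bool) → C} {φ : Formula C}
    {ι : ℕ → List (Tr T × Bool)} (hι : Function.Surjective ι) {e : ℕ → ℕ → Tr T → Bool}
    (he : Mem (NT i r φ ι) e) (ψ : Formula C) (h : ψ ∈ T) :
    ∀ a b, e a b (.sub ⟨ψ, h⟩) = true ↔ Holds (red r e) ψ ![a, b] := by
  have hU : ∀ a b, Uc i r φ (e a b) := he.U
  have hsw : ∀ a b t, e b a t = e a b (.sw t) := fun a b t => congrFun (he.rev a b) t
  have hdg : ∀ a b t, e a a t = e a b (.dg t) := fun a b t => congrFun (he.src a b) t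
  have hev : ∀ {ψ : Formula C} (h : ψ ∈ T) (a b : ℕ),
      ev (e a b) ψ ↔ e a b (.sub ⟨ψ, h⟩) = true := fun h a b =>
    ⟨fun ⟨_, h2⟩ => h2, fun h2 => ⟨h, h2⟩⟩
  induction ψ with
  | label B hB k j =>
    intro a b
    have h1 : ev _ _ ↔ _ := (hU a b).sub ⟨_, h⟩
    rw [hev h] at h1
    rw [h1]
    change r (fun n => e a b (bt k j n)) ∈ B ↔
      r (fun n => e ((![a, b] : Fin 2 → ℕ) k) ((![a, b] : Fin 2 → ℕ) j) (.lab n)) ∈ B
    have h2 : (fun n => e a b (bt k j n)) =
        fun n => e ((![a, b] : Fin 2 → ℕ) k) ((![a, b] : Fin 2 → ℕ) j) (.lab n) := by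
      funext n
      rcases cases2 k with rfl | rfl <;> rcases cases2 j with rfl | rfl
      · exact (hdg a b _).symm
      · rfl
      · exact (hsw a b _).symm
      · exact (hsw a b _).symm.trans (hdg b a _).symm
    rw [h2]
  | equal k j =>
    intro a b
    have h1 : ev _ _ ↔ _ := (hU a b).sub ⟨_, h⟩
    rw [hev h] at h1
    rw [h1]
    have h2 : e a b .eq = true ↔ a = b := he.dia a b
    rw [h2]
    change _ ↔ (![a, b] : Fin 2 → ℕ) k = (![a, b] : Fin 2 → ℕ) j
    rcases cases2 k with rfl | rfl <;> rcases cases2 j with rfl | rfl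
    · exact ⟨fun _ => rfl, fun _ => Or.inl rfl⟩
    · exact ⟨fun e => e.resolve_left (by decide), fun e => Or.inr e⟩
    · exact ⟨fun e => (e.resolve_left (by decide)).symm, fun e => Or.inr e.symm⟩
    · exact ⟨fun _ => rfl, fun _ => Or.inl rfl⟩
  | not θ ih =>
    intro a b
    have h1 : ev _ _ ↔ ¬ ev _ _ := (hU a b).sub ⟨_, h⟩
    rw [hev h, hev (hT.not _ h), ih] at h1
    exact h1
  | conj θ ih =>
    intro a b
    have h1 : ev _ _ ↔ ∀ n, ev _ _ := (hU a b).sub ⟨_, h⟩
    rw [hev h] at h1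
    rw [h1]
    refine forall_congr' fun n => ?_
    rw [hev (hT.conj _ h n), ih]
  | cnt k j θ ih =>
    intro a b
    have hθ := hT.cnt _ _ _ h
    have h1 : ev _ _ ↔ _ := (hU a b).sub ⟨_, h⟩
    rw [hev h] at h1
    rw [h1]
    rcases cases2 j with rfl | rfl
    · rw [if_pos rfl]
      have h2 : evs (e a b) k θ ↔ (k : ℕ∞) ≤ {c | Holds (red r e) θ ![c, b]}.encard := by
        have h3 : evs (e a b) k θ ↔ e b a (.cnt k (.sw (.sub ⟨θ, hθ⟩))) = true := by
          rw [hsw a b]
          exact ⟨fun ⟨_, h2⟩ => h2, fun h2 => ⟨hθ, h2⟩⟩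
        rw [h3, cnt_mem hι he]
        have h4 : {c | e b c (.sw (.sub ⟨θ, hθ⟩)) = true} = {c | Holds (red r e) θ ![c, b]} := by
          ext c
          change e b c (.sw (.sub ⟨θ, hθ⟩)) = true ↔ _
          rw [← hsw b c]
          exact ih hθ c b
        rw [h4]
      rw [h2]
      change _ ↔ (k : ℕ∞) ≤ {c | Holds (red r e) θ (Function.update ![a, b] 0 c)}.encard
      simp only [upd0]
    · rw [if_neg (by decide)]
      have h2 : evc (e a b) k θ ↔ (k : ℕ∞) ≤ {c | Holds (red r e) θ ![a, c]}.encard := by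
        have h3 : evc (e a b) k θ ↔ e a b (.cnt k (.sub ⟨θ, hθ⟩)) = true :=
          ⟨fun ⟨_, h2⟩ => h2, fun h2 => ⟨hθ, h2⟩⟩
        rw [h3, cnt_mem hι he]
        have h4 : {c | e a c (.sub ⟨θ, hθ⟩) = true} = {c | Holds (red r e) θ ![a, c]} := by
          ext c
          exact ih hθ a c
        rw [h4]
      rw [h2]
      change _ ↔ (k : ℕ∞) ≤ {c | Holds (red r e) θ (Function.update ![a, b] 1 c)}.encard
      simp only [upd1]

theorem models_red (hT : Clo T) {i : C → ℕ → Bool} {r : (ℕ → Bool) → C} {φ : Formula C}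
    (hφ : φ ∈ T) {ι : ℕ → List (Tr T × Bool)} (hι : Function.Surjective ι)
    {e : ℕ → ℕ → Tr T → Bool} (he : Mem (NT i r φ ι) e) (v : Fin 2 → ℕ) :
    Holds (red r e) φ v := by
  have h1 := truth hT hι he φ hφ (v 0) (v 1)
  rw [eta2] at h1
  rw [← h1]
  have hU : Uc i r φ (e (v 0) (v 1)) := he.U _ _
  obtain ⟨_, h2⟩ := hU.ev
  exact h2

/-- the labels are truth values of terms -/
theorem truthT (hT : Clo T) {i : C → ℕ → Bool} {r : (ℕ → Bool) → C} {φ : Formula C}
    {ι : ℕ → List (Tr T × Bool)} (hι : Function.Surjective ι) {e : ℕ → ℕ → Tr T → Bool}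
    (he : Mem (NT i r φ ι) e) (t : Tr T) : ∀ a b, e a b t = true ↔ Q i (red r e) t a b := by
  have hU : ∀ a b, Uc i r φ (e a b) := he.U
  have hsw : ∀ a b t, e b a t = e a b (.sw t) := fun a b t => congrFun (he.rev a b) t
  have hdg : ∀ a b t, e a a t = e a b (.dg t) := fun a b t => congrFun (he.src a b) t
  induction t with
  | sub s => exact truth hT hι he s.1 s.2
  | lab j =>
    intro a b
    change _ ↔ i (r fun n => e a b (.lab n)) j = true
    rw [(hU a b).ran]
  | eq => exact he.dia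
  | tt => exact fun a b => ⟨fun _ => trivial, fun _ => (hU a b).tt⟩
  | not t ih =>
    intro a b
    rw [(hU a b).not, ih]
    exact Iff.rfl
  | and t t' ih ih' =>
    intro a b
    rw [(hU a b).and, ih, ih']
    exact Iff.rfl
  | sw t ih =>
    intro a b
    rw [← hsw, ih]
    exact Iff.rfl
  | dg t ih =>
    intro a b
    rw [← hdg, ih]
    exact Iff.rfl
  | cnt n t ih =>
    intro a b
    rw [cnt_mem hι he]
    simp only [ih]
    exact Iff.rfl

theorem expa_red (hT : Clo T) {i : C → ℕ → Bool} {r : (ℕ → Bool) → C} {φ : Formula C}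
    {ι : ℕ → List (Tr T × Bool)} (hι : Function.Surjective ι) {e : ℕ → ℕ → Tr T → Bool}
    (he : Mem (NT i r φ ι) e) : expa T i (red r e) = e := by
  funext a b t
  refine Bool.eq_iff_iff.2 ?_
  rw [expa_iff, ← truthT hT hι he]

theorem holds_iso {x x' : (Fin 2 → ℕ) → C} (g : Equiv.Perm ℕ)
    (hg : ∀ v : Fin 2 → ℕ, x' (g ∘ v) = x v) (ψ : Formula C) :
    ∀ v, Holds x' ψ (g ∘ v) ↔ Holds x ψ v := by
  induction ψ with
  | label B hB i j =>
    intro v
    have h1 := hg ![v i, v j]
    have h2 : g ∘ ![v i, v j] = ![(g ∘ v) i, (g ∘ v) j] := by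
      funext k
      fin_cases k <;> rfl
    rw [h2] at h1
    change x' _ ∈ B ↔ x _ ∈ B
    rw [h1]
  | equal i j => exact fun v => g.injective.eq_iff
  | not θ ih => exact fun v => not_congr (ih v)
  | conj θ ih => exact fun v => forall_congr' fun n => ih n v
  | cnt n i θ ih =>
    intro v
    have h1 : ∀ a, Function.update (g ∘ v) i (g a) = g ∘ Function.update v i a := by
      intro a
      exact (Function.comp_update g v i a).symm
    have h2 : {a | Holds x' θ (Function.update (g ∘ v) i a)} =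
        g '' {a | Holds x θ (Function.update v i a)} := by
      ext a
      constructor
      · intro ha
        refine ⟨g.symm a, ?_, g.apply_symm_apply a⟩
        change Holds x θ _
        rw [← ih, ← h1, g.apply_symm_apply]
        exact ha
      · rintro ⟨b, hb, rfl⟩
        change Holds x' θ _
        rw [h1, ih]
        exact hb
    change (n : ℕ∞) ≤ _ ↔ (n : ℕ∞) ≤ _
    rw [h2, g.injective.injOn.encard_image]

theorem q_iso {i : C → ℕ → Bool} {x x' : (Fin 2 → ℕ) → C} (g : Equiv.Perm ℕ)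
    (hg : ∀ v : Fin 2 → ℕ, x' (g ∘ v) = x v) (t : Tr T) :
    ∀ a b, Q i x' t (g a) (g b) ↔ Q i x t a b := by
  have h2 : ∀ a b, ![g a, g b] = g ∘ ![a, b] := by
    intro a b
    funext k
    fin_cases k <;> rfl
  induction t with
  | sub s =>
    intro a b
    change Holds x' s.1 ![g a, g b] ↔ Holds x s.1 ![a, b]
    rw [h2]
    exact holds_iso g hg s.1 _
  | lab j =>
    intro a b
    change i (x' ![g a, g b]) j = true ↔ i (x ![a, b]) j = true
    rw [h2, hg]
  | eq => exact fun a b => g.injective.eq_iff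
  | tt => exact fun a b => Iff.rfl
  | not t ih => exact fun a b => not_congr (ih a b)
  | and t t' ih ih' => exact fun a b => and_congr (ih a b) (ih' a b)
  | sw t ih => exact fun a b => ih b a
  | dg t ih => exact fun a b => ih a a
  | cnt n t ih =>
    intro a b
    have h3 : {c | Q i x' t (g a) c} = g '' {c | Q i x t a c} := by
      ext c
      constructor
      · intro hc
        refine ⟨g.symm c, ?_, g.apply_symm_apply c⟩
        change Q i x t a _
        rw [← ih, g.apply_symm_apply]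
        exact hc
      · rintro ⟨d, hd, rfl⟩
        exact (ih a d).2 hd
    change (n : ℕ∞) ≤ _ ↔ (n : ℕ∞) ≤ _
    rw [h3, g.injective.injOn.encard_image]

theorem iso_expa {i : C → ℕ → Bool} {x x' : (Fin 2 → ℕ) → C} (g : Equiv.Perm ℕ)
    (hg : ∀ v : Fin 2 → ℕ, x' (g ∘ v) = x v) : Iso (expa T i x) (expa T i x') := by
  refine ⟨g, fun a b => ?_⟩
  funext t
  refine Bool.eq_iff_iff.2 ?_
  rw [expa_iff, expa_iff]
  exact q_iso g hg t a b

theorem iso_red {r : (ℕ → Bool) → C} {e e' : ℕ → ℕ → Tr T → Bool} (h : Iso e e') :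
    ∃ g : Equiv.Perm ℕ, ∀ v : Fin 2 → ℕ, red r e' (g ∘ v) = red r e v := by
  obtain ⟨g, hg⟩ := h
  refine ⟨g, fun v => ?_⟩
  change r (fun n => e' (g (v 0)) (g (v 1)) (.lab n)) = r (fun n => e (v 0) (v 1) (.lab n))
  rw [hg]

end Sem

end Pool.Agent.H71.CQ
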