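import Pool.Agent.H71.CQ.Defs

/-!
# Targets (board cqt_modules, page H71_C2.md)
-/

set_option autoImplicit false

open Set

namespace Pool.Agent.H71.CQ

/-! ### tools -/

/-- SIL. Silver's theorem for a measurable set and an equivalence relation on it. -/
def T_SIL : Prop :=
  ∀ (Ω : Type) [MeasurableSpace Ω] [StandardBorelSpace Ω] (X : Set Ω), MeasurableSet X →
    ∀ E : Ω → Ω → Prop, (∀ a ∈ X, E a a) → (∀ a ∈ X, ∀ b ∈ X, E a b → E b a) →
      (∀ a ∈ X, ∀ b ∈ X, ∀ c ∈ X, E a b → E b c → E a c) →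
      MeasurableSet {p : Ω × Ω | E p.1 p.2} →
      (∃ D : Set Ω, D ⊆ X ∧ D.Countable ∧ ∀ a ∈ X, ∃ d ∈ D, E a d) ∨
        ∃ F : (ℕ → Bool) → Ω, Measurable F ∧ (∀ u, F u ∈ X) ∧ ∀ u v, u ≠ v → ¬ E (F u) (F v)

/-- CTO. Countable-to-one families contain perfect families. -/
def T_CTO : Prop :=
  ∀ (L : Type) [MeasurableSpace L] [StandardBorelSpace L] (F : (ℕ → Bool) → ℕ → ℕ → L),
    Measurable F → (∀ u, {v | Iso (F u) (F v)}.Countable) →
      ∃ f : (ℕ → Bool) → (ℕ → Bool), Measurable f ∧ ∀ u v, u ≠ v → ¬ Iso (F (f u)) (F (f v))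

/-- CTV. The same on any countable infinite set. -/
def T_CTV : Prop :=
  ∀ (L : Type) [MeasurableSpace L] [StandardBorelSpace L] (N : NF L) (V : Type) [Countable V]
    [Infinite V] (F : (ℕ → Bool) → V → V → L), (∀ x y, Measurable fun u => F u x y) →
    (∀ u, Mem N (F u)) → (∀ u, {v | Iso (F u) (F v)}.Countable) → Perf N

/-- MEM. The class is Borel. -/
def T_MEM : Prop :=
  ∀ (L : Type) [MeasurableSpace L] [StandardBorelSpace L] (N : NF L), N.Ok →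
    MeasurableSet {e : ℕ → ℕ → L | Mem N e}

/-- INV. Real invariants of tuples take countably many values. -/
def T_INV : Prop :=
  ∀ (L : Type) [MeasurableSpace L] [StandardBorelSpace L] (N : NF L), N.Ok → ¬ Perf N →
    ∀ (k : ℕ) (Y : Type) [MeasurableSpace Y] [StandardBorelSpace Y]
      (ρ : (ℕ → ℕ → L) → (Fin k → ℕ) → Y), (∀ z, Measurable fun e => ρ e z) →
      (∀ (e e' : ℕ → ℕ → L) (g : ℕ ≃ ℕ), IsIso e e' g → ∀ z, ρ e' (g ∘ z) = ρ e z) →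
      {y | ∃ e z, Mem N e ∧ ρ e z = y}.Countable

/-- RLC. Countably many labels are realised. -/
def T_RLC : Prop :=
  ∀ (L : Type) [MeasurableSpace L] [StandardBorelSpace L] (N : NF L), N.Ok → ¬ Perf N →
    (Rl N).Countable

/-- SUB. Measurable enumeration of substructures. -/
def T_SUB : Prop :=
  ∀ (L : Type) [MeasurableSpace L] [StandardBorelSpace L] (Ω : Type) [MeasurableSpace Ω]
    (V : Type) [Countable V] (E : V → V → L) (A : Ω → Set V),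
    (∀ x, MeasurableSet {u | x ∈ A u}) → (∀ u, (A u).Infinite) →
      ∃ F : Ω → ℕ → ℕ → L, Measurable F ∧ ∀ u, Iso (F u) (fun x y : A u => E x y)

/-! ### degrees and glueing -/

/-- DEG. The degree of a closed label depends only on the colour. -/
def T_DEG : Prop :=
  ∀ (L : Type) (N : NF L), N.Sep → ∀ (V V' : Type) (e : V → V → L) (e' : V' → V' → L),
    Mem N e → Mem N e' → ∀ x x', e x x = e' x' x' → ∀ l, ¬ Op N l →
      {y | e x y = l}.Finite ∧ {y | e x y = l}.encard = {y | e' x' y = l}.encard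

/-- GLU. The glueing criterion. -/
def T_GLU : Prop :=
  ∀ (L : Type) (N : NF L), N.Sep → ∀ (V : Type) (E : V → V → L), Coh N E →
    (∀ x, ∃ (V0 : Type) (e : V0 → V0 → L) (x0 : V0), Mem N e ∧ e x0 x0 = E x x ∧
      (∀ l, ¬ Op N l → {y | E x y = l}.encard = {y | e x0 y = l}.encard) ∧
      ∀ n, N.nu n (E x x) = ⊤ → {y | E x y ∈ N.B n}.Infinite) → Mem N E

/-! ### relabelling between infinite sorts -/

/-- the pairs which get new labels -/
def Cell {L : Type} (e : ℕ → ℕ → L) (p q : L) (x y : ℕ) : Prop :=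
  x ≠ y ∧ ((e x x = p ∧ e y y = q) ∨ (e x x = q ∧ e y y = p))

/-- the label `l` is possible between points of the colours of `x` and `y` -/
def Psb {L : Type} (e : ℕ → ℕ → L) (x y : ℕ) (l : L) : Prop :=
  ∃ x1 y1, x1 ≠ y1 ∧ e x1 x1 = e x x ∧ e y1 y1 = e y y ∧ e x1 y1 = l

/-- finite partial relabellings which respect the capacities -/
structure Cnd {L : Type} (N : NF L) (e : ℕ → ℕ → L) (p q : L) (a : ℕ → ℕ → Option L) : Prop where
  fin : {z : ℕ × ℕ | a z.1 z.2 ≠ none}.Finite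
  cell : ∀ x y l, a x y = some l → Cell e p q x y
  rev : ∀ x y l, a x y = some l → a y x = some (N.rev l)
  psb : ∀ x y l, a x y = some l → Psb e x y l
  cap : ∀ x l, ¬ Op N l → {y | a x y = some l}.encard ≤ {y | e x y = l}.encard

/-- extension -/
def Le {L : Type} (a b : ℕ → ℕ → Option L) : Prop := ∀ x y l, a x y = some l → b x y = some l

/-- RBA. One more label. -/
def T_RBA : Prop :=
  ∀ (L : Type) (N : NF L), N.Sep → ∀ e : ℕ → ℕ → L, Mem N e → ∀ p q : L,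
    ∀ a, Cnd N e p q a → ∀ x y, Cell e p q x y → a x y = none → ∀ l, Psb e x y l →
    (¬ Op N l → {z | a x z = some l}.encard < {z | e x z = l}.encard) →
    (¬ Op N (N.rev l) → {z | a y z = some (N.rev l)}.encard < {z | e y z = N.rev l}.encard) →
    ∃ b, Cnd N e p q b ∧ Le a b ∧ b x y = some l ∧
      ∀ z w, b z w ≠ none → a z w ≠ none ∨ (z = x ∧ w = y) ∨ (z = y ∧ w = x)

/-- the labels `lam i` are closed and possible for `p`, `q` -/
def Lam {L : Type} (N : NF L) (e : ℕ → ℕ → L) (p q : L) (lam : ℕ → L) : Prop :=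
  Function.Injective lam ∧
    ∀ i, ¬ Op N (lam i) ∧ ∃ x y, x ≠ y ∧ e x x = p ∧ e y y = q ∧ e x y = lam i

/-- RBC. Every pair can be labelled. -/
def T_RBC : Prop :=
  ∀ (L : Type) (N : NF L), N.Sep → ∀ e : ℕ → ℕ → L, Mem N e → ∀ p q : L, ∀ lam, Lam N e p q lam →
    ∀ a, Cnd N e p q a → ∀ x y, Cell e p q x y →
      ∃ b l, Cnd N e p q b ∧ Le a b ∧ b x y = some l

/-- RBR. Every row can be completed. -/
def T_RBR : Prop :=
  ∀ (L : Type) (N : NF L), N.Sep → ∀ e : ℕ → ℕ → L, Mem N e → ∀ p q : L,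
    (Srt e p).Infinite → (Srt e q).Infinite → ∀ a, Cnd N e p q a →
    ∀ x y, Cell e p q x y → ¬ Op N (e x y) →
      ∃ b, Cnd N e p q b ∧ Le a b ∧ {z | b x z = some (e x y)}.encard = {z | e x z = e x y}.encard

/-- RBN. Infinitely many neighbours in `B n`. -/
def T_RBN : Prop :=
  ∀ (L : Type) (N : NF L), N.Sep → ∀ e : ℕ → ℕ → L, Mem N e → ∀ p q : L,
    (Srt e p).Infinite → (Srt e q).Infinite → ∀ a, Cnd N e p q a →
    ∀ x n, {y | Cell e p q x y ∧ e x y ∈ N.B n}.Infinite → ∀ m : ℕ,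
      ∃ b y l, Cnd N e p q b ∧ Le a b ∧ m ≤ y ∧ b x y = some l ∧ l ∈ N.B n

/-- RBD. One more real is avoided. -/
def T_RBD : Prop :=
  ∀ (L : Type) (N : NF L), N.Sep → ∀ e : ℕ → ℕ → L, Mem N e → ∀ p q : L,
    (Srt e p).Infinite → (Srt e q).Infinite → ∀ lam, Lam N e p q lam →
    ∀ x x', x ≠ x' → e x x = p → e x' x' = p → ∀ a, Cnd N e p q a → ∀ r : Set (ℕ × ℕ),
      ∃ b, Cnd N e p q b ∧ Le a b ∧ ∀ e' : ℕ → ℕ → L, (∀ z w l, b z w = some l → e' z w = l) →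
        (∀ l, ¬ Op N l → {z | e' x z = l}.encard = {z | e x z = l}.encard) →
        {ij : ℕ × ℕ | ∃ y, e' x y = lam ij.1 ∧ e' x' y = lam ij.2} ≠ r

/-- RLB. Relabelling against countably many reals. -/
def T_RLB : Prop :=
  ∀ (L : Type) (N : NF L), N.Sep → ∀ (e : ℕ → ℕ → L), Mem N e → ∀ p q : L,
    (Srt e p).Infinite → (Srt e q).Infinite → ∀ lam : ℕ → L, Lam N e p q lam →
    ∀ x x', x ≠ x' → e x x = p → e x' x' = p → ∀ r : ℕ → Set (ℕ × ℕ),
      ∃ e' : ℕ → ℕ → L, Mem N e' ∧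
        ∀ k, {ij : ℕ × ℕ | ∃ y, e' x y = lam ij.1 ∧ e' x' y = lam ij.2} ≠ r k

/-- ALF. Between infinite sorts there are finitely many closed labels. -/
def T_ALF : Prop :=
  ∀ (L : Type) [MeasurableSpace L] [StandardBorelSpace L] (N : NF L), N.Ok → ¬ Perf N →
    ∀ e : ℕ → ℕ → L, Mem N e → ∀ p q : L, (Srt e p).Infinite → (Srt e q).Infinite →
      {l | ¬ Op N l ∧ ∃ x y, x ≠ y ∧ e x x = p ∧ e y y = q ∧ e x y = l}.Finite

/-- free labels exist for infinite sorts -/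
def HFre {L : Type} (N : NF L) : Prop :=
  ∀ e : ℕ → ℕ → L, Mem N e → ∀ p q, (Srt e p).Infinite → (Srt e q).Infinite →
    (Fr N p q).Nonempty

/-- free labels are unique for colours of points which are not algebraic -/
def HUni {L : Type} (N : NF L) : Prop :=
  ∀ e : ℕ → ℕ → L, Mem N e → ∀ x y, ¬ Wp N e x → ¬ Wp N e y →
    (Fr N (e x x) (e y y)).Subsingleton

/-- the same for two similar structures -/
def HUn2 {L : Type} (N : NF L) : Prop :=
  ∀ e e' : ℕ → ℕ → L, Mem N e → Mem N e' → Sim N e e' → ∀ x y, ¬ Wp N e x → ¬ Wp N e' y →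
    (Fr N (e x x) (e' y y)).Subsingleton

/-- FRE. -/
def T_FRE : Prop :=
  ∀ (L : Type) (N : NF L), N.Sep →
    (∀ e : ℕ → ℕ → L, Mem N e → ∀ p q : L, (Srt e p).Infinite → (Srt e q).Infinite →
      {l | ¬ Op N l ∧ ∃ x y, x ≠ y ∧ e x x = p ∧ e y y = q ∧ e x y = l}.Finite) → HFre N

/-! ### algebraic points -/

/-- the levels of the algebraic part -/
def Lv {L : Type} (N : NF L) {V : Type} (e : V → V → L) (r : ℕ → L) (n : ℕ) : ℕ → Set V
  | 0 => {x | (∃ i, i ≤ n ∧ e x x = r i) ∧ (Srt e (e x x)).Finite}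
  | d + 1 => Lv N e r n d ∪ {y | ∃ x ∈ Lv N e r n d, ∃ i, i ≤ n ∧ e x y = r i ∧ ¬ Op N (e x y)}

/-- LVF. The levels are finite, increase and exhaust the algebraic part. -/
def T_LVF : Prop :=
  ∀ (L : Type) (N : NF L), N.Sep → ∀ (V : Type) (e : V → V → L), Mem N e → ∀ r : ℕ → L,
    (∀ x y, ∃ i, e x y = r i) →
    (∀ n d, (Lv N e r n d).Finite) ∧ (∀ n d n' d', n ≤ n' → d ≤ d' → Lv N e r n d ⊆ Lv N e r n' d') ∧
      ∀ x, Wp N e x ↔ ∃ n, x ∈ Lv N e r n n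

/-- ORB. Algebraic points have finitely many conjugates (also in a similar structure). -/
def T_ORB : Prop :=
  ∀ (L : Type) (N : NF L), N.Sep → ∀ (V V' : Type) (e : V → V → L) (e' : V' → V' → L),
    Mem N e → Mem N e' → (∀ q, (Srt e q).Infinite ↔ (Srt e' q).Infinite) →
    ∀ k : {x // Wp N e x},
      {k' | ∃ h : {x // Wp N e x} ≃ {x // Wp N e' x}, WIso N e e' h ∧ h k = k'}.Finite

/-- LIM. Compactness of the set of isomorphisms of the algebraic parts. -/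
def T_LIM : Prop :=
  ∀ (L : Type) (N : NF L), N.Sep → ∀ (V V' : Type) (e : V → V → L) (e' : V' → V' → L),
    Mem N e → Mem N e' → (∀ q, (Srt e q).Infinite ↔ (Srt e' q).Infinite) →
    ∀ h : ℕ → ({x // Wp N e x} ≃ {x // Wp N e' x}), (∀ n, WIso N e e' (h n)) →
      ∃ h0 : {x // Wp N e x} ≃ {x // Wp N e' x}, WIso N e e' h0 ∧
        ∀ K : Set {x // Wp N e x}, K.Finite → ∀ m, ∃ n, m ≤ n ∧ ∀ k ∈ K, h0 k = h n k

/-- LVI. Isomorphisms of the algebraic parts from isomorphisms of the levels. -/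
def T_LVI : Prop :=
  ∀ (L : Type) (N : NF L), N.Sep → ∀ (V V' : Type) (e : V → V → L) (e' : V' → V' → L),
    Mem N e → Mem N e' → (∀ q, (Srt e q).Infinite ↔ (Srt e' q).Infinite) →
    ∀ r : ℕ → L, (∀ x y, ∃ i, e x y = r i) → (∀ x y, ∃ i, e' x y = r i) →
      ((∃ g : {x // Wp N e x} ≃ {x // Wp N e' x}, WIso N e e' g) ↔
        ∀ n, ∃ f : Lv N e r n n ≃ Lv N e' r n n, ∀ x y, e' (f x) (f y) = e x y)

/-- SIM. Countably many classes of similar structures. -/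
def T_SIM : Prop :=
  ∀ (L : Type) [MeasurableSpace L] [StandardBorelSpace L] (N : NF L), N.Ok → ¬ Perf N →
    ∃ D : Set (ℕ → ℕ → L), D.Countable ∧ (∀ d ∈ D, Mem N d) ∧
      ∀ e : ℕ → ℕ → L, Mem N e → ∃ d ∈ D, Sim N d e

/-- WTR. Algebraic points stay algebraic. -/
def T_WTR : Prop :=
  ∀ (L : Type) (N : NF L) (V V' : Type) (e : V → V → L) (E : V' → V' → L)
    (i : {x // Wp N e x} → V'), (∀ x y, E (i x) (i y) = e x y) →
    (∀ x : {x // Wp N e x}, (Srt e (e x x)).Finite → (Srt E (e x x)).Finite) →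
    ∀ x, Wp N E (i x)

/-- WCH. The algebraic part and the components of a glued structure. -/
def T_WCH : Prop :=
  ∀ (L : Type) (N : NF L) (V : Type) (E : V → V → L) (P : Set V) (c : V → V → Prop),
    (∀ k ∈ P, Wp N E k) → (∀ k ∈ P, ∀ a, a ∉ P → Op N (E k a)) →
    (∀ a, a ∉ P → (Srt E (E a a)).Infinite) →
    (∀ a, a ∉ P → ∀ b, b ∉ P → ¬ c a b → Op N (E a b)) →
    (∀ a, a ∉ P → ∀ b, b ∉ P → c a b → Relation.ReflTransGen
      (fun x y => x ∉ P ∧ y ∉ P ∧ (¬ Op N (E x y) ∨ ¬ Op N (E y x))) a b) →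
    (∀ a, c a a) → (∀ a b, c a b → c b a) → (∀ a b d, c a b → c b d → c a d) →
    (∀ v, Wp N E v ↔ v ∈ P) ∧ ∀ a, a ∉ P → ∀ b, Cm N E a b ↔ b ∉ P ∧ c a b

/-! ### sums -/

/-- the points of a sum over the algebraic part of `e0` -/
abbrev SV {L : Type} (N : NF L) (e0 : ℕ → ℕ → L) {J : Type} (e : J → ℕ → ℕ → L) : Type :=
  {x // Wp N e0 x} ⊕ (Σ j : J, {x // ¬ Wp N (e j) x})

/-- the non-algebraic points of a sum -/
abbrev SQ {L : Type} (N : NF L) {J : Type} (e : J → ℕ → ℕ → L) : Type :=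
  Σ j : J, {x // ¬ Wp N (e j) x}

open Classical in
/-- the sum of the structures `e j` over the algebraic part of `e0` -/
noncomputable def SE {L : Type} (N : NF L) (e0 : ℕ → ℕ → L) {J : Type} (e : J → ℕ → ℕ → L)
    (g : ∀ j, {x // Wp N e0 x} ≃ {x // Wp N (e j) x}) (cr : SQ N e → SQ N e → L) :
    SV N e0 e → SV N e0 e → L
  | .inl k, .inl k' => e0 k k'
  | .inl k, .inr v => e v.1 (g v.1 k) v.2
  | .inr v, .inl k => e v.1 v.2 (g v.1 k)
  | .inr v, .inr w => if v.1 = w.1 then e v.1 v.2 w.2 else cr v w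

/-- the hypotheses on a sum -/
structure SH {L : Type} (N : NF L) (e0 : ℕ → ℕ → L) {J : Type} (e : J → ℕ → ℕ → L)
    (g : ∀ j, {x // Wp N e0 x} ≃ {x // Wp N (e j) x}) (cr : SQ N e → SQ N e → L) : Prop where
  m0 : Mem N e0
  m : ∀ j, Mem N (e j)
  s : ∀ j q, (Srt e0 q).Infinite ↔ (Srt (e j) q).Infinite
  w : ∀ j, WIso N e0 (e j) (g j)
  fr : ∀ v w : SQ N e, v.1 ≠ w.1 → cr v w ∈ Fr N (e v.1 v.2 v.2) (e w.1 w.2 w.2)
  rev : ∀ v w : SQ N e, v.1 ≠ w.1 → cr w v = N.rev (cr v w)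

/-- SUM. Sums are members. -/
def T_SUM : Prop :=
  ∀ (L : Type) (N : NF L), N.Sep → ∀ (e0 : ℕ → ℕ → L) (J : Type) [Nonempty J]
    (e : J → ℕ → ℕ → L) (g : ∀ j, {x // Wp N e0 x} ≃ {x // Wp N (e j) x})
    (cr : SQ N e → SQ N e → L), SH N e0 e g cr → Mem N (SE N e0 e g cr)

/-- SUW. The algebraic part and the components of a sum. -/
def T_SUW : Prop :=
  ∀ (L : Type) (N : NF L), N.Sep → ∀ (e0 : ℕ → ℕ → L) (J : Type)
    (e : J → ℕ → ℕ → L) (g : ∀ j, {x // Wp N e0 x} ≃ {x // Wp N (e j) x})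
    (cr : SQ N e → SQ N e → L), SH N e0 e g cr →
    (∀ k, Wp N (SE N e0 e g cr) (Sum.inl k)) ∧ (∀ v, ¬ Wp N (SE N e0 e g cr) (Sum.inr v)) ∧
      ∀ v w : SQ N e, Cm N (SE N e0 e g cr) (Sum.inr v) (Sum.inr w) ↔
        v.1 = w.1 ∧ Cm N (e v.1) v.2 w.2

/-- the chosen free label -/
noncomputable def fr {L : Type} (N : NF L) (p q : L) : L :=
  open Classical in if h : (Fr N p q).Nonempty then h.some else p

/-- the graph coded by `u` -/
def Hg (u : ℕ → Bool) (m n : ℕ) : Prop :=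
  (4 ≤ m ∧ (n = 0 ∨ n = 2)) ∨ (4 ≤ n ∧ (m = 0 ∨ m = 2)) ∨
    (4 ≤ m ∧ 4 ≤ n ∧ m - 4 < 2 * (n - 4) + (if u (n - 4) = true then 1 else 0))

/-- the order of the copies: left copies `(false, m)`, then right copies `(true, n)` -/
def Ol (i j : Bool × ℕ) : Prop := (i.1 = false ∧ j.1 = true) ∨ (i.1 = j.1 ∧ i.2 < j.2)

open Classical in
/-- the labels from smaller to greater copies -/
noncomputable def Cl {L : Type} (N : NF L) (e : ℕ → ℕ → L) (x y : ℕ) (l0 l1 : L) (u : ℕ → Bool)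
    (v w : SQ N fun _ : Bool × ℕ => e) : L :=
  if v.1.1 = false ∧ w.1.1 = true ∧ v.2 = x ∧ w.2 = y then
    (if Hg u v.1.2 w.1.2 then l1 else l0)
  else fr N (e v.2 v.2) (e w.2 w.2)

open Classical in
/-- the labels between the copies -/
noncomputable def Cr {L : Type} (N : NF L) (e : ℕ → ℕ → L) (x y : ℕ) (l0 l1 : L) (u : ℕ → Bool)
    (v w : SQ N fun _ : Bool × ℕ => e) : L :=
  if Ol v.1 w.1 then Cl N e x y l0 l1 u v w else N.rev (Cl N e x y l0 l1 u w v)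

/-- the coding structure: infinitely many copies on both sides -/
noncomputable abbrev UE {L : Type} (N : NF L) (e : ℕ → ℕ → L) (x y : ℕ) (l0 l1 : L)
    (u : ℕ → Bool) : SV N e (fun _ : Bool × ℕ => e) → SV N e (fun _ : Bool × ℕ => e) → L :=
  SE N e (fun _ : Bool × ℕ => e) (fun _ => Equiv.refl _) (Cr N e x y l0 l1 u)

/-- UNH. The coding structure is a sum. -/
def T_UNH : Prop :=
  ∀ (L : Type) (N : NF L), N.Sep → HFre N → ∀ e : ℕ → ℕ → L, Mem N e → ∀ x y, ¬ Wp N e x →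
    ¬ Wp N e y → ∀ l0 ∈ Fr N (e x x) (e y y), ∀ l1 ∈ Fr N (e x x) (e y y), ∀ u,
      SH N e (fun _ : Bool × ℕ => e) (fun _ => Equiv.refl _) (Cr N e x y l0 l1 u)

/-- UNX. The definable sets of the coding structure. -/
def T_UNX : Prop :=
  ∀ (L : Type) (N : NF L), N.Sep → ∀ e : ℕ → ℕ → L, Mem N e → ∀ (x y : ℕ) (hx : ¬ Wp N e x)
    (hy : ¬ Wp N e y) (l0 l1 : L), l0 ≠ l1 → ∀ (u : ℕ → Bool) (a : SV N e fun _ : Bool × ℕ => e),
    ((∀ i : Fin 4, UE N e x y l0 l1 u (Sum.inr ⟨(false, i), x, hx⟩) a =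
        if i = 0 ∨ i = 2 then l1 else l0) ↔ ∃ n, 4 ≤ n ∧ a = Sum.inr ⟨(true, n), y, hy⟩) ∧
    ((∀ i : Fin 4, UE N e x y l0 l1 u a (Sum.inr ⟨(true, i), y, hy⟩) =
        if i = 0 ∨ i = 2 then l1 else l0) ↔ ∃ m, 4 ≤ m ∧ a = Sum.inr ⟨(false, m), x, hx⟩)

/-- UNC. The coding structures are countable-to-one. -/
def T_UNC : Prop :=
  ∀ (L : Type) (N : NF L), N.Sep → ∀ e : ℕ → ℕ → L, Mem N e → ∀ (x y : ℕ) (_ : ¬ Wp N e x)
    (_ : ¬ Wp N e y) (l0 l1 : L), l0 ≠ l1 → ∀ u : ℕ → Bool,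
    {u' | Iso (UE N e x y l0 l1 u) (UE N e x y l0 l1 u')}.Countable

/-- UNI. Free labels are unique. -/
def T_UNI : Prop :=
  ∀ (L : Type) [MeasurableSpace L] [StandardBorelSpace L] (N : NF L), N.Ok → ¬ Perf N →
    HFre N → HUni N

/-- UN2. Free labels are unique for similar structures. -/
def T_UN2 : Prop := ∀ (L : Type) (N : NF L), N.Sep → HFre N → HUni N → HUn2 N

/-- the sum with the unique free labels -/
noncomputable abbrev SF {L : Type} (N : NF L) (e0 : ℕ → ℕ → L) {J : Type} (e : J → ℕ → ℕ → L)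
    (g : ∀ j, {x // Wp N e0 x} ≃ {x // Wp N (e j) x}) : SV N e0 e → SV N e0 e → L :=
  SE N e0 e g fun v w => fr N (e v.1 v.2 v.2) (e w.1 w.2 w.2)

/-- SFH. The hypotheses on the sum with the unique free labels. -/
def T_SFH : Prop :=
  ∀ (L : Type) (N : NF L), N.Sep → HFre N → HUn2 N → ∀ (e0 : ℕ → ℕ → L) (J : Type)
    (e : J → ℕ → ℕ → L) (g : ∀ j, {x // Wp N e0 x} ≃ {x // Wp N (e j) x}), Mem N e0 →
    (∀ j, Mem N (e j)) → (∀ j q, (Srt e0 q).Infinite ↔ (Srt (e j) q).Infinite) →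
    (∀ j, WIso N e0 (e j) (g j)) →
    SH N e0 e g fun v w => fr N (e v.1 v.2 v.2) (e w.1 w.2 w.2)

/-! ### countably many pieces up to twisted isomorphism -/

/-- SEL. Selection of a robust sequence. -/
def T_SEL : Prop :=
  ∀ (T Θ : Type) [Countable Θ] (E : T → T → Prop) (H : T → Θ → Prop), (∀ a, E a a) →
    (∀ a b, E a b → E b a) → (∀ a b c, E a b → E b c → E a c) →
    (¬ ∃ D : Set T, D.Countable ∧ ∀ a, ∃ d ∈ D, E a d) →
    ∃ t : ℕ → T, (∀ i j, i ≠ j → ¬ E (t i) (t j)) ∧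
      ∀ i θ, H (t i) θ → {m | H (t m) θ}.Infinite

/-- a property of the component of `x` over the algebraic part of `e0` -/
def Hs {L : Type} (N : NF L) {e0 e : ℕ → ℕ → L} (g : {x // Wp N e0 x} ≃ {x // Wp N e x})
    (x : ℕ) : Option {x // Wp N e0 x} × L → Prop
  | (none, l) => ∃ y, Cm N e x y ∧ e y y = l
  | (some k, l) => ∃ y, Cm N e x y ∧ e (g k) y = l

/-- robust sequences of pieces -/
structure Rob {L : Type} (N : NF L) (e0 : ℕ → ℕ → L) (e : ℕ → ℕ → ℕ → L)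
    (g : ∀ j, {x // Wp N e0 x} ≃ {x // Wp N (e j) x}) (x : ℕ → ℕ) : Prop where
  m0 : Mem N e0
  m : ∀ j, Mem N (e j)
  s : ∀ j q, (Srt e0 q).Infinite ↔ (Srt (e j) q).Infinite
  w : ∀ j, WIso N e0 (e j) (g j)
  hx : ∀ j, ¬ Wp N (e j) (x j)
  ne : ∀ i j, i ≠ j → ¬ TwI N (e i) (e j) (x i) (x j)
  rob : ∀ i θ, Hs N (g i) (x i) θ → {m | Hs N (g m) (x m) θ}.Infinite

/-- the big structure: the sum of infinitely many copies of every `e j` -/
noncomputable abbrev Big {L : Type} (N : NF L) (e0 : ℕ → ℕ → L) (e : ℕ → ℕ → ℕ → L)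
    (g : ∀ j, {x // Wp N e0 x} ≃ {x // Wp N (e j) x}) :
    SV N e0 (fun j : ℕ × ℕ => e j.1) → SV N e0 (fun j : ℕ × ℕ => e j.1) → L :=
  SF N e0 (fun j : ℕ × ℕ => e j.1) fun j => g j.1

/-- the substructure coded by `S`: for `m ∉ S` all pieces which are isomorphic to the piece with
number `m` are removed, but one -/
def As {L : Type} (N : NF L) (e0 : ℕ → ℕ → L) (e : ℕ → ℕ → ℕ → L)
    (g : ∀ j, {x // Wp N e0 x} ≃ {x // Wp N (e j) x}) (x : ℕ → ℕ) (S : Set ℕ) :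
    Set (SV N e0 (fun j : ℕ × ℕ => e j.1))
  | .inl _ => True
  | .inr v => ∀ m, m ∉ S → PI N (e m) (e v.1.1) ((g m).symm.trans (g v.1.1)) (x m) v.2 →
      v.1 = (m, 0) ∧ Cm N (e m) (x m) v.2

/-- CLA. All properties stay infinite: the components which have a property of some component. -/
def T_CLA : Prop :=
  ∀ (L : Type) (N : NF L) (e0 : ℕ → ℕ → L) (e : ℕ → ℕ → ℕ → L)
    (g : ∀ j, {x // Wp N e0 x} ≃ {x // Wp N (e j) x}) (x : ℕ → ℕ), Rob N e0 e g x →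
    ∀ (S : Set ℕ) (j : ℕ) (y : ℕ) (_ : ¬ Wp N (e j) y) (θ : Option {x // Wp N e0 x} × L),
      Hs N (g j) y θ → {v : ℕ × ℕ | ∃ (z : ℕ) (hz : ¬ Wp N (e v.1) z), Hs N (g v.1) z θ ∧
        (Sum.inr ⟨v, z, hz⟩ : SV N e0 (fun j : ℕ × ℕ => e j.1)) ∈ As N e0 e g x S}.Infinite

/-- CLM. The substructures are members, with the expected algebraic part and components. -/
def T_CLM : Prop :=
  ∀ (L : Type) (N : NF L), N.Sep → HFre N → HUn2 N → ∀ (e0 : ℕ → ℕ → L) (e : ℕ → ℕ → ℕ → L)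
    (g : ∀ j, {x // Wp N e0 x} ≃ {x // Wp N (e j) x}) (x : ℕ → ℕ), Rob N e0 e g x →
    ∀ S : Set ℕ,
      Mem N (fun a b : As N e0 e g x S => Big N e0 e g a b) ∧
      (∀ a : As N e0 e g x S, Wp N (fun a b : As N e0 e g x S => Big N e0 e g a b) a ↔
        ∃ k, a.1 = Sum.inl k) ∧
      ∀ (v w : SQ N (fun j : ℕ × ℕ => e j.1)) (hv : Sum.inr v ∈ As N e0 e g x S)
        (hw : Sum.inr w ∈ As N e0 e g x S),
        Cm N (fun a b : As N e0 e g x S => Big N e0 e g a b) ⟨_, hv⟩ ⟨_, hw⟩ ↔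
          v.1 = w.1 ∧ Cm N (e v.1.1) v.2 w.2

/-- CLI. The substructures are not isomorphic. -/
def T_CLI : Prop :=
  ∀ (L : Type) (N : NF L), N.Sep → HFre N → HUn2 N → ∀ (e0 : ℕ → ℕ → L) (e : ℕ → ℕ → ℕ → L)
    (g : ∀ j, {x // Wp N e0 x} ≃ {x // Wp N (e j) x}) (x : ℕ → ℕ), Rob N e0 e g x →
    ∀ S S' : Set ℕ, Iso (fun a b : As N e0 e g x S => Big N e0 e g a b)
      (fun a b : As N e0 e g x S' => Big N e0 e g a b) → S = S'

/-- CLD. Countably many pieces up to twisted isomorphism. -/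
def T_CLD : Prop :=
  ∀ (L : Type) [MeasurableSpace L] [StandardBorelSpace L] (N : NF L), N.Ok → ¬ Perf N →
    HFre N → HUn2 N → ∀ e0 : ℕ → ℕ → L, Mem N e0 →
    ∃ D : Set ((ℕ → ℕ → L) × ℕ), D.Countable ∧
      (∀ d ∈ D, Mem N d.1 ∧ Sim N e0 d.1 ∧ ¬ Wp N d.1 d.2) ∧
      ∀ (e : ℕ → ℕ → L) (x : ℕ), Mem N e → Sim N e0 e → ¬ Wp N e x → ∃ d ∈ D, TwI N d.1 e d.2 x

/-! ### links -/

/-- the data of infinitely many linked orbits -/
structure Lnk {L : Type} (N : NF L) (e : ℕ → ℕ → L) (x : ℕ) (O : ℕ → Set {k // Wp N e k})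
    (y : ℕ → ℕ) (t : ℕ → Equiv.Perm {k // Wp N e k}) : Prop where
  m : Mem N e
  hx : ¬ Wp N e x
  dis : ∀ i j, i ≠ j → Disjoint (O i) (O j)
  inv : ∀ (h : {k // Wp N e k} ≃ {k // Wp N e k}), WIso N e e h → ∀ i k, k ∈ O i ↔ h k ∈ O i
  con : ∀ i, ∀ k ∈ O i, ∀ k' ∈ O i, ∃ h : {k // Wp N e k} ≃ {k // Wp N e k},
    WIso N e e h ∧ h k = k'
  hy : ∀ i, Cm N e x (y i)
  ht : ∀ i, ∀ k, k ∉ O i → t i k = k
  ne : ∀ i, ∃ k ∈ O i, e k (y i) ≠ e (t i k) (y i)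

/-- LNA. Infinitely many linked points give the data. -/
def T_LNA : Prop :=
  ∀ (L : Type) (N : NF L), N.Sep → ∀ e : ℕ → ℕ → L, Mem N e → ∀ x, ¬ Wp N e x →
    {k | Lk N e x k}.Infinite → ∃ O y t, Lnk N e x O y t

/-- the labels of `z` on the orbit `O` are a permutation of those of `y` -/
def Cls {L : Type} (N : NF L) (e : ℕ → ℕ → L) (O : Set {k // Wp N e k}) (y z : ℕ) : Prop :=
  e z z = e y y ∧ ∃ s : Equiv.Perm {k // Wp N e k}, (∀ k, k ∉ O → s k = k) ∧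
    ∀ k ∈ O, e (s k) z = e k y

open Classical in
/-- the new labels between the algebraic part and the component of `x` in the copy `c` -/
noncomputable def Lw {L : Type} (N : NF L) (e : ℕ → ℕ → L) (x : ℕ) (O : ℕ → Set {k // Wp N e k})
    (y : ℕ → ℕ) (t : ℕ → Equiv.Perm {k // Wp N e k}) (S : ℕ → Bool) (c : Fin 3)
    (k : {k // Wp N e k}) (z : ℕ) : L :=
  if h : c ≠ 0 ∧ Cm N e x z ∧ ∃ i, k ∈ O i ∧ Cls N e (O i) (y i) z then
    (if c = 2 ∧ S h.2.2.choose = true then e (t h.2.2.choose k) (y h.2.2.choose)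
      else e k (y h.2.2.choose))
  else e k z

/-- the points of the coding structure -/
abbrev LV {L : Type} (N : NF L) (e : ℕ → ℕ → L) : Type :=
  {k // Wp N e k} ⊕ (Fin 3 × {z // ¬ Wp N e z})

open Classical in
/-- the coding structure -/
noncomputable def LE {L : Type} (N : NF L) (e : ℕ → ℕ → L) (x : ℕ) (O : ℕ → Set {k // Wp N e k})
    (y : ℕ → ℕ) (t : ℕ → Equiv.Perm {k // Wp N e k}) (S : ℕ → Bool) : LV N e → LV N e → L
  | .inl k, .inl k' => e k k'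
  | .inl k, .inr v => Lw N e x O y t S v.1 k v.2
  | .inr v, .inl k => N.rev (Lw N e x O y t S v.1 k v.2)
  | .inr v, .inr w => if v.1 = w.1 then e v.2 w.2 else fr N (e v.2 v.2) (e w.2 w.2)

/-- LNM. The coding structures are members. -/
def T_LNM : Prop :=
  ∀ (L : Type) (N : NF L), N.Sep → HFre N → HUni N → ∀ (e : ℕ → ℕ → L) (x : ℕ)
    (O : ℕ → Set {k // Wp N e k}) (y : ℕ → ℕ) (t : ℕ → Equiv.Perm {k // Wp N e k}),
    Lnk N e x O y t → ∀ S : ℕ → Bool, Mem N (LE N e x O y t S)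

/-- LNW. Their algebraic part and components. -/
def T_LNW : Prop :=
  ∀ (L : Type) (N : NF L), N.Sep → HFre N → HUni N → ∀ (e : ℕ → ℕ → L) (x : ℕ)
    (O : ℕ → Set {k // Wp N e k}) (y : ℕ → ℕ) (t : ℕ → Equiv.Perm {k // Wp N e k}),
    Lnk N e x O y t → ∀ S : ℕ → Bool,
    (∀ k, Wp N (LE N e x O y t S) (Sum.inl k)) ∧ (∀ v, ¬ Wp N (LE N e x O y t S) (Sum.inr v)) ∧
      ∀ v w : Fin 3 × {z // ¬ Wp N e z}, Cm N (LE N e x O y t S) (Sum.inr v) (Sum.inr w) ↔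
        v.1 = w.1 ∧ Cm N e v.2 w.2

/-- LNI. The coding structures are countable-to-one. -/
def T_LNI : Prop :=
  ∀ (L : Type) (N : NF L), N.Sep → HFre N → HUni N → ∀ (e : ℕ → ℕ → L) (x : ℕ)
    (O : ℕ → Set {k // Wp N e k}) (y : ℕ → ℕ) (t : ℕ → Equiv.Perm {k // Wp N e k}),
    Lnk N e x O y t → ∀ S : ℕ → Bool,
      {S' | Iso (LE N e x O y t S) (LE N e x O y t S')}.Countable

/-- LNK. Finitely many algebraic points are linked to a component. -/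
def T_LNK : Prop :=
  ∀ (L : Type) [MeasurableSpace L] [StandardBorelSpace L] (N : NF L), N.Ok → ¬ Perf N →
    HFre N → HUni N → ∀ e : ℕ → ℕ → L, Mem N e → ∀ x, ¬ Wp N e x → {k | Lk N e x k}.Finite

/-! ### the class of one similarity type -/

/-- representatives of the pieces over the algebraic part of `e0` -/
structure Rep {L : Type} (N : NF L) (e0 : ℕ → ℕ → L) {ι : Type} (e : ι → ℕ → ℕ → L)
    (g : ∀ i, {x // Wp N e0 x} ≃ {x // Wp N (e i) x}) (x : ι → ℕ) : Prop where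
  m0 : Mem N e0
  m : ∀ i, Mem N (e i)
  s : ∀ i q, (Srt e0 q).Infinite ↔ (Srt (e i) q).Infinite
  w : ∀ i, WIso N e0 (e i) (g i)
  hx : ∀ i, ¬ Wp N (e i) (x i)
  lk : ∀ i, {k | Lk N (e i) (x i) k}.Finite
  un : ∀ i j, PI N (e i) (e j) ((g i).symm.trans (g j)) (x i) (x j) → i = j
  ex : ∀ (e' : ℕ → ℕ → L) (g' : {x // Wp N e0 x} ≃ {x // Wp N e' x}) (x' : ℕ), Mem N e' →
    (∀ q, (Srt e0 q).Infinite ↔ (Srt e' q).Infinite) → WIso N e0 e' g' → ¬ Wp N e' x' →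
    ∃ i, PI N (e i) e' ((g i).symm.trans g') (x i) x'

/-- CTT. Countably many pieces. -/
def T_CTT : Prop :=
  ∀ (L : Type) (N : NF L), N.Sep → ∀ e0 : ℕ → ℕ → L, Mem N e0 →
    (∀ e : ℕ → ℕ → L, Mem N e → ∀ x, ¬ Wp N e x → {k | Lk N e x k}.Finite) →
    (∃ D : Set ((ℕ → ℕ → L) × ℕ), D.Countable ∧
      (∀ d ∈ D, Mem N d.1 ∧ Sim N e0 d.1 ∧ ¬ Wp N d.1 d.2) ∧
      ∀ (e : ℕ → ℕ → L) (x : ℕ), Mem N e → Sim N e0 e → ¬ Wp N e x → ∃ d ∈ D, TwI N d.1 e d.2 x) →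
    ∃ (ι : Type) (_ : Countable ι) (e : ι → ℕ → ℕ → L)
      (g : ∀ i, {x // Wp N e0 x} ≃ {x // Wp N (e i) x}) (x : ι → ℕ), Rep N e0 e g x

/-- the points of the structure with infinitely many copies of every piece -/
abbrev TV {L : Type} (N : NF L) (e0 : ℕ → ℕ → L) {ι : Type} (e : ι → ℕ → ℕ → L) (x : ι → ℕ) :
    Type := {k // Wp N e0 k} ⊕ (Σ i : ι, ℕ × {y // Cm N (e i) (x i) y})

open Classical in
/-- the structure with infinitely many copies of every piece -/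
noncomputable def TE {L : Type} (N : NF L) (e0 : ℕ → ℕ → L) {ι : Type} (e : ι → ℕ → ℕ → L)
    (g : ∀ i, {x // Wp N e0 x} ≃ {x // Wp N (e i) x}) (x : ι → ℕ) :
    TV N e0 e x → TV N e0 e x → L
  | .inl k, .inl k' => e0 k k'
  | .inl k, .inr v => e v.1 (g v.1 k) v.2.2
  | .inr v, .inl k => e v.1 v.2.2 (g v.1 k)
  | .inr v, .inr w => if v.1 = w.1 ∧ v.2.1 = w.2.1 then e v.1 v.2.2 w.2.2
      else fr N (e v.1 v.2.2 v.2.2) (e w.1 w.2.2 w.2.2)

/-- the points of the structure with multiplicities `m` -/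
def Am {L : Type} (N : NF L) (e0 : ℕ → ℕ → L) {ι : Type} (e : ι → ℕ → ℕ → L) (x : ι → ℕ)
    (m : ι → ℕ∞) : Set (TV N e0 e x)
  | .inl _ => True
  | .inr v => (v.2.1 : ℕ∞) < m v.1

/-- the structure with multiplicities `m` -/
noncomputable abbrev TM {L : Type} (N : NF L) (e0 : ℕ → ℕ → L) {ι : Type} (e : ι → ℕ → ℕ → L)
    (g : ∀ i, {x // Wp N e0 x} ≃ {x // Wp N (e i) x}) (x : ι → ℕ) (m : ι → ℕ∞) :
    Am N e0 e x m → Am N e0 e x m → L := fun a b => TE N e0 e g x a b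

/-- DEC. Every similar structure has multiplicities. -/
def T_DEC : Prop :=
  ∀ (L : Type) (N : NF L), N.Sep → HFre N → HUn2 N → ∀ (e0 : ℕ → ℕ → L) (ι : Type)
    (e : ι → ℕ → ℕ → L) (g : ∀ i, {x // Wp N e0 x} ≃ {x // Wp N (e i) x}) (x : ι → ℕ),
    Rep N e0 e g x → ∀ (E : ℕ → ℕ → L) (G : {x // Wp N e0 x} ≃ {x // Wp N E x}), Mem N E →
    (∀ q, (Srt e0 q).Infinite ↔ (Srt E q).Infinite) → WIso N e0 E G →
    ∃ m : ι → ℕ∞, Iso E (TM N e0 e g x m)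

/-- the action of the automorphisms of the algebraic part on the pieces -/
def Ac {L : Type} (N : NF L) (e0 : ℕ → ℕ → L) {ι : Type} (e : ι → ℕ → ℕ → L)
    (g : ∀ i, {x // Wp N e0 x} ≃ {x // Wp N (e i) x}) (x : ι → ℕ)
    (h : {x // Wp N e0 x} ≃ {x // Wp N e0 x}) (i i' : ι) : Prop :=
  PI N (e i) (e i') ((g i).symm.trans (h.trans (g i'))) (x i) (x i')

/-- conjugate multiplicities -/
def Tm {L : Type} (N : NF L) (e0 : ℕ → ℕ → L) {ι : Type} (e : ι → ℕ → ℕ → L)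
    (g : ∀ i, {x // Wp N e0 x} ≃ {x // Wp N (e i) x}) (x : ι → ℕ) (m m' : ι → ℕ∞) : Prop :=
  ∃ h : {x // Wp N e0 x} ≃ {x // Wp N e0 x}, WIso N e0 e0 h ∧
    ∀ i i', Ac N e0 e g x h i i' → m' i' = m i

/-- ACT. Conjugacy of multiplicities is an equivalence relation and conjugate multiplicities give
isomorphic structures. -/
def T_ACT : Prop :=
  ∀ (L : Type) (N : NF L), N.Sep → HFre N → HUn2 N → ∀ (e0 : ℕ → ℕ → L) (ι : Type)
    (e : ι → ℕ → ℕ → L) (g : ∀ i, {x // Wp N e0 x} ≃ {x // Wp N (e i) x}) (x : ι → ℕ),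
    Rep N e0 e g x →
    (∀ m, Tm N e0 e g x m m) ∧ (∀ m m', Tm N e0 e g x m m' → Tm N e0 e g x m' m) ∧
    (∀ m m' m'', Tm N e0 e g x m m' → Tm N e0 e g x m' m'' → Tm N e0 e g x m m'') ∧
    ∀ m m', Tm N e0 e g x m m' → Iso (TM N e0 e g x m) (TM N e0 e g x m')

/-- ISO. Isomorphic members have conjugate multiplicities. -/
def T_ISO : Prop :=
  ∀ (L : Type) (N : NF L), N.Sep → HFre N → HUn2 N → ∀ (e0 : ℕ → ℕ → L) (ι : Type)
    (e : ι → ℕ → ℕ → L) (g : ∀ i, {x // Wp N e0 x} ≃ {x // Wp N (e i) x}) (x : ι → ℕ),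
    Rep N e0 e g x → ∀ m m' : ι → ℕ∞,
    (∀ q, (Srt e0 q).Infinite ↔ (Srt (TM N e0 e g x m) q).Infinite) →
    (∀ q, (Srt e0 q).Infinite ↔ (Srt (TM N e0 e g x m') q).Infinite) →
    Iso (TM N e0 e g x m) (TM N e0 e g x m') → Tm N e0 e g x m m'

/-- BOR. Conjugacy of multiplicities is Borel. -/
def T_BOR : Prop :=
  ∀ (L : Type) (N : NF L), N.Sep → ∀ (e0 : ℕ → ℕ → L) (ι : Type) [Countable ι]
    (e : ι → ℕ → ℕ → L) (g : ∀ i, {x // Wp N e0 x} ≃ {x // Wp N (e i) x}) (x : ι → ℕ),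
    Rep N e0 e g x → MeasurableSet {p : (ι → ℕ∞) × (ι → ℕ∞) | Tm N e0 e g x p.1 p.2}

/-- ONE. Countably many types in a similarity class. -/
def T_ONE : Prop :=
  ∀ (L : Type) [MeasurableSpace L] [StandardBorelSpace L] (N : NF L), N.Ok → ¬ Perf N →
    HFre N → HUn2 N → ∀ (e0 : ℕ → ℕ → L) (ι : Type) [Countable ι]
    (e : ι → ℕ → ℕ → L) (g : ∀ i, {x // Wp N e0 x} ≃ {x // Wp N (e i) x}) (x : ι → ℕ),
    Rep N e0 e g x →
    ∃ D : Set (ℕ → ℕ → L), D.Countable ∧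
      ∀ E : ℕ → ℕ → L, Mem N E → Sim N e0 E → ∃ d ∈ D, Iso E d

/-- MAIN. The dichotomy for classes in normal form. -/
def T_MAIN : Prop :=
  ∀ (L : Type) [MeasurableSpace L] [StandardBorelSpace L] (N : NF L), N.Ok →
    (∃ D : Set (ℕ → ℕ → L), D.Countable ∧ ∀ E : ℕ → ℕ → L, Mem N E → ∃ d ∈ D, Iso E d) ∨ Perf N

end Pool.Agent.H71.CQ
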